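import Pool.Agent.Lib_helper32.JO.Stmt

/-!
# Project JO, part B1: further definitions
-/

set_option autoImplicit false

namespace Pool.Agent.JO

open Complex MeasureTheory Filter Topology
open UpperHalfPlane hiding I
open scoped MatrixGroups ComplexConjugate ENNReal

/-- the row `i e^{ia}/√y`, the bottom row of `gg (t + i y) a` -/
noncomputable def xa (a y : ℝ) : ℂ := I * cexp (a * I) / ((√y : ℝ) : ℂ)

/-- the constant term of `Ψ_w` minus the mean of `Ψ_w` -/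
noncomputable def g1 {N : ℕ} [NeZero N] (k : ℕ) (u : ℍ → ℂ) (w : ℍ) (x : ℂ)
    (v : ZMod N × ZMod N) : ℂ :=
  CF (PsiF (N := N) k u w) x v - mean (PsiF (N := N) k u w)

/-- the same on the ray of angle `a` -/
noncomputable def gw {N : ℕ} [NeZero N] (k : ℕ) (u : ℍ → ℂ) (w : ℍ) (a : ℝ)
    (v : ZMod N × ZMod N) (y : ℝ) : ℂ :=
  g1 k u w (xa a y) v

/-- the good base points -/
def SS (N : ℕ) [NeZero N] (k : ℕ) (u : ℍ → ℂ) : Set ℍ :=
  {w | ∀ v ∈ PV N, MelOK (gw (N := N) k u w 0 v)}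

/-- the amplifier with a multiple of the identity (`App1 1 ∅ a = a`, `App1 0 PP a = App PP a`) -/
noncomputable def App1 {N : ℕ} (l : ℂ) (PP : Finset ℕ) (a : ZMod N × ZMod N → ℝ → ℂ)
    (v : ZMod N × ZMod N) (κ : ℝ) : ℂ :=
  l * a v κ + App PP a v κ

/-- the amplifier applied to the family -/
noncomputable def MP {N : ℕ} (l : ℂ) (PP : Finset ℕ) (F : QN N → SL(2, ℝ) → ℂ) :
    QN N → SL(2, ℝ) → ℂ :=
  fun s g => l * F s g + ∑ p ∈ PP, Tm p F s g

/-- the amplifier on functions of rows -/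
noncomputable def c2 {N : ℕ} (l : ℂ) (PP : Finset ℕ) (g : ℂ → ZMod N × ZMod N → ℂ) (x : ℂ)
    (v : ZMod N × ZMod N) : ℂ :=
  l * g x v + ∑ p ∈ PP, ((p : ℂ)⁻¹ * g (x / p) ((p : ZMod N)⁻¹ * v.1, (p : ZMod N)⁻¹ * v.2) +
    g x v + (p : ℂ) * g (p * x) ((p : ZMod N) * v.1, (p : ZMod N) * v.2))

/-- the term of frequency `n` -/
noncomputable def fL (Wp Wm : ℝ → ℂ) (w : ℍ) (n : ℤ) (y : ℝ) : ℂ :=
  if 0 < n then fLoc Wp 1 w y else fLoc Wm (-1) w y

/-- the Whittaker function of holomorphic forms of weight `k` (for `y^(k/2) f`) -/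
noncomputable def hW (k : ℕ) (y : ℝ) : ℂ :=
  ((y ^ ((k : ℝ) / 2) * Real.exp (-(2 * Real.pi * y)) : ℝ) : ℂ)

/-- the local factor of holomorphic forms; `hY k i s = 1` -/
noncomputable def hY (k : ℕ) (w : ℍ) (s : ℂ) : ℂ :=
  ((w.im ^ ((k : ℝ) / 2) : ℝ) : ℂ) * (2 / (1 + (w.im : ℂ) + I * w.re)) ^ ((k : ℂ) - s)

end Pool.Agent.JO
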