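import Pool.Agent.Lib_helper32.JO.N0

/-! # Project JO, part B1: continuation of one Mellin transform -/

set_option autoImplicit false

namespace Pool.Agent.JO

open Complex MeasureTheory Filter Topology
open UpperHalfPlane hiding I
open scoped MatrixGroups ComplexConjugate ENNReal

theorem con_norm_cpow {y : ℝ} (hy : 0 < y) (s : ℂ) : ‖(y : ℂ) ^ (-s - 1)‖ = y ^ (-s.re - 1) := by
  rw [Complex.norm_cpow_eq_rpow_re_of_pos hy]
  simp

theorem con_meas_cpow (s : ℂ) : Measurable fun y : ℝ => (y : ℂ) ^ s :=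
  Complex.measurable_ofReal.pow_const s

theorem con_deriv {y : ℝ} (hy : 0 < y) (h : ℂ) (s : ℂ) :
    HasDerivAt (fun s : ℂ => (y : ℂ) ^ (-s - 1) * h)
      ((y : ℂ) ^ (-s - 1) * Complex.log y * (-1) * h) s := by
  have h1 : HasDerivAt (fun s : ℂ => -s - 1) (-1) s := ((hasDerivAt_id s).neg).sub_const 1
  have h2 := h1.const_cpow (c := (y : ℂ)) (Or.inl (by exact_mod_cast hy.ne'))
  exact h2.mul_const h

/-- holomorphy of the integral over `(0, 1]` -/
theorem con_zero_pr {h : ℝ → ℂ} (hm : Measurable h) {σ₁ : ℝ}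
    (hi : ∀ σ : ℝ, σ < σ₁ → IntegrableOn (fun y => ‖h y‖ * y ^ (-σ - 1)) (Set.Ioc 0 1)) :
    DifferentiableOn ℂ (fun s : ℂ => ∫ y in Set.Ioc (0 : ℝ) 1, (y : ℂ) ^ (-s - 1) * h y)
      {s | s.re < σ₁} := by
  intro s₀ hs₀
  have hs₀' : s₀.re < σ₁ := hs₀
  set δ : ℝ := (σ₁ - s₀.re) / 3 with hδ
  have hδ0 : 0 < δ := by
    rw [hδ]
    linarith
  have hmeas : ∀ s : ℂ, AEStronglyMeasurable (fun y : ℝ => (y : ℂ) ^ (-s - 1) * h y)
      (volume.restrict (Set.Ioc (0 : ℝ) 1)) :=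
    fun s => ((con_meas_cpow _).mul hm).aestronglyMeasurable
  have key := hasDerivAt_integral_of_dominated_loc_of_deriv_le
    (μ := volume.restrict (Set.Ioc (0 : ℝ) 1))
    (F := fun (s : ℂ) (y : ℝ) => (y : ℂ) ^ (-s - 1) * h y)
    (F' := fun (s : ℂ) (y : ℝ) => (y : ℂ) ^ (-s - 1) * Complex.log y * (-1) * h y)
    (bound := fun y : ℝ => (1 / δ) * (‖h y‖ * y ^ (-(s₀.re + 2 * δ) - 1)))
    (x₀ := s₀) (s := Metric.ball s₀ δ) (Metric.ball_mem_nhds s₀ hδ0)
    (Filter.Eventually.of_forall fun s => hmeas s) ?_ ?_ ?_ ?_ ?_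
  · exact key.2.differentiableAt.differentiableWithinAt
  · refine Integrable.mono' (hi s₀.re hs₀') (hmeas s₀) ?_
    filter_upwards [ae_restrict_mem measurableSet_Ioc] with y hy
    rw [norm_mul, con_norm_cpow hy.1, mul_comm]
  · refine Measurable.aestronglyMeasurable ?_
    exact ((((con_meas_cpow _).mul (Complex.measurable_log.comp Complex.measurable_ofReal)).mul_const
      (-1)).mul hm)
  · filter_upwards [ae_restrict_mem measurableSet_Ioc] with y hy s hs
    have hy0 : 0 < y := hy.1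
    have h1 : |s.re - s₀.re| < δ := by
      have := Complex.abs_re_le_norm (s - s₀)
      rw [Metric.mem_ball, dist_eq_norm] at hs
      rw [Complex.sub_re] at this
      linarith
    have h2 := (abs_lt.1 h1).2
    have h3 : ‖(y : ℂ) ^ (-s - 1)‖ ≤ y ^ (-(s₀.re + δ) - 1) := by
      rw [con_norm_cpow hy0]
      exact Real.rpow_le_rpow_of_exponent_ge hy0 hy.2 (by linarith)
    have h4 : ‖Complex.log y‖ ≤ (1 / δ) * y ^ (-δ) := by
      rw [← Complex.ofReal_log hy0.le, Complex.norm_real, Real.norm_eq_abs]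
      have h5 := Real.abs_log_mul_self_rpow_lt y δ hy0 hy.2 hδ0
      rw [abs_mul, abs_of_pos (Real.rpow_pos_of_pos hy0 δ)] at h5
      rw [Real.rpow_neg hy0.le, ← div_eq_mul_inv, le_div_iff₀ (Real.rpow_pos_of_pos hy0 δ)]
      exact h5.le
    rw [norm_mul, norm_mul, norm_mul, norm_neg, norm_one, mul_one]
    calc ‖(y : ℂ) ^ (-s - 1)‖ * ‖Complex.log y‖ * ‖h y‖
        ≤ y ^ (-(s₀.re + δ) - 1) * ((1 / δ) * y ^ (-δ)) * ‖h y‖ := by
          apply mul_le_mul_of_nonneg_right _ (norm_nonneg _)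
          exact mul_le_mul h3 h4 (norm_nonneg _) (Real.rpow_nonneg hy0.le _)
      _ = (1 / δ) * (‖h y‖ * (y ^ (-(s₀.re + δ) - 1) * y ^ (-δ))) := by ring
      _ = (1 / δ) * (‖h y‖ * y ^ (-(s₀.re + 2 * δ) - 1)) := by
          rw [← Real.rpow_add hy0]
          congr 3
          ring
  · exact (hi (s₀.re + 2 * δ) (by rw [hδ]; linarith)).const_mul _
  · filter_upwards [ae_restrict_mem measurableSet_Ioc] with y hy s _
    exact con_deriv hy.1 (h y) s

/-- holomorphy of the integral over `(1, ∞)` -/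
theorem con_inf_pr {h : ℝ → ℂ} (hm : Measurable h)
    (hd : ∃ C d : ℝ, 0 < d ∧ ∀ y, 1 ≤ y → ‖h y‖ ≤ C * Real.exp (-(d * y))) :
    Differentiable ℂ (fun s : ℂ => ∫ y in Set.Ioi (1 : ℝ), (y : ℂ) ^ (-s - 1) * h y) := by
  obtain ⟨C, d, hd0, hd⟩ := hd
  have hC : 0 ≤ C := by
    have h1 := (norm_nonneg _).trans (hd 1 le_rfl)
    have h2 := Real.exp_pos (-(d * 1))
    by_contra h3
    push Not at h3
    nlinarith
  intro s₀
  have hmeas : ∀ s : ℂ, AEStronglyMeasurable (fun y : ℝ => (y : ℂ) ^ (-s - 1) * h y)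
      (volume.restrict (Set.Ioi (1 : ℝ))) :=
    fun s => ((con_meas_cpow _).mul hm).aestronglyMeasurable
  set A : ℝ := |s₀.re| + 1 with hA
  have hA1 : 1 ≤ A := by
    rw [hA]
    linarith [abs_nonneg s₀.re]
  have hbi : ∀ B : ℝ, 0 < B → IntegrableOn (fun y : ℝ => C * (y ^ B * Real.exp (-(d * y))))
      (Set.Ioi 1) := by
    intro B hB
    have h1 := integrableOn_rpow_mul_exp_neg_mul_rpow (p := 1) (s := B) (b := d) (by linarith)
      one_pos hd0
    have h2 : (fun x : ℝ => x ^ B * Real.exp (-d * x ^ (1 : ℝ))) =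
        fun y : ℝ => y ^ B * Real.exp (-(d * y)) := by
      funext y
      rw [Real.rpow_one, neg_mul]
    rw [h2] at h1
    exact (h1.mono_set (Set.Ioi_subset_Ioi zero_le_one)).const_mul C
  have key := hasDerivAt_integral_of_dominated_loc_of_deriv_le
    (μ := volume.restrict (Set.Ioi (1 : ℝ)))
    (F := fun (s : ℂ) (y : ℝ) => (y : ℂ) ^ (-s - 1) * h y)
    (F' := fun (s : ℂ) (y : ℝ) => (y : ℂ) ^ (-s - 1) * Complex.log y * (-1) * h y)
    (bound := fun y : ℝ => C * (y ^ (A + 1) * Real.exp (-(d * y))))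
    (x₀ := s₀) (s := Metric.ball s₀ 1) (Metric.ball_mem_nhds s₀ one_pos)
    (Filter.Eventually.of_forall fun s => hmeas s) ?_ ?_ ?_ ?_ ?_
  · exact key.2.differentiableAt
  · refine Integrable.mono' (hbi A (by linarith)) (hmeas s₀) ?_
    filter_upwards [ae_restrict_mem measurableSet_Ioi] with y hy
    have hy1 : (1 : ℝ) < y := hy
    have hy0 : 0 < y := by linarith
    rw [norm_mul, con_norm_cpow hy0]
    have h3 : y ^ (-s₀.re - 1) ≤ y ^ A := by
      apply Real.rpow_le_rpow_of_exponent_le hy1.le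
      have := neg_abs_le s₀.re
      rw [hA]
      linarith
    calc y ^ (-s₀.re - 1) * ‖h y‖ ≤ y ^ A * (C * Real.exp (-(d * y))) :=
          mul_le_mul h3 (hd y hy1.le) (norm_nonneg _) (Real.rpow_nonneg hy0.le _)
      _ = C * (y ^ A * Real.exp (-(d * y))) := by ring
  · refine Measurable.aestronglyMeasurable ?_
    exact ((((con_meas_cpow _).mul (Complex.measurable_log.comp Complex.measurable_ofReal)).mul_const
      (-1)).mul hm)
  · filter_upwards [ae_restrict_mem measurableSet_Ioi] with y hy s hs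
    have hy1 : (1 : ℝ) < y := hy
    have hy0 : 0 < y := by linarith
    have h1 : |s.re - s₀.re| < 1 := by
      have := Complex.abs_re_le_norm (s - s₀)
      rw [Metric.mem_ball, dist_eq_norm] at hs
      rw [Complex.sub_re] at this
      linarith
    have h2 := (abs_lt.1 h1).1
    have h3 : ‖(y : ℂ) ^ (-s - 1)‖ ≤ y ^ A := by
      rw [con_norm_cpow hy0]
      apply Real.rpow_le_rpow_of_exponent_le hy1.le
      have := neg_abs_le s₀.re
      rw [hA]
      linarith
    have h4 : ‖Complex.log y‖ ≤ y := by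
      rw [← Complex.ofReal_log hy0.le, Complex.norm_real, Real.norm_eq_abs,
        abs_of_nonneg (Real.log_nonneg hy1.le)]
      exact Real.log_le_self hy0.le
    rw [norm_mul, norm_mul, norm_mul, norm_neg, norm_one, mul_one]
    calc ‖(y : ℂ) ^ (-s - 1)‖ * ‖Complex.log y‖ * ‖h y‖
        ≤ y ^ A * y * (C * Real.exp (-(d * y))) := by
          apply mul_le_mul _ (hd y hy1.le) (norm_nonneg _) (by positivity)
          exact mul_le_mul h3 h4 (norm_nonneg _) (Real.rpow_nonneg hy0.le _)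
      _ = C * (y ^ (A + 1) * Real.exp (-(d * y))) := by
          rw [Real.rpow_add_one hy0.ne' A]
          ring
  · exact hbi (A + 1) (by linarith)
  · filter_upwards [ae_restrict_mem measurableSet_Ioi] with y hy s _
    exact con_deriv (zero_lt_one.trans hy) (h y) s

theorem con_sq {c : ℝ → ℂ} (hok : MelOK c) {σ : ℝ} (hσ : σ < 1 / 2) :
    IntegrableOn (fun y => ‖c y‖ * y ^ (-σ - 1)) (Set.Ioc 0 1) := by
  have h1 : IntegrableOn (fun y : ℝ => ‖c y‖ ^ 2 / y ^ 2) (Set.Ioc 0 1) :=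
    hok.sq.mono_set Set.Ioc_subset_Ioi_self
  have h2 : IntegrableOn (fun y : ℝ => y ^ (-(2 * σ))) (Set.Ioc 0 1) := by
    have h3 := intervalIntegral.intervalIntegrable_rpow' (a := 0) (b := 1) (r := -(2 * σ))
      (by linarith)
    rwa [intervalIntegrable_iff_integrableOn_Ioc_of_le zero_le_one] at h3
  have h4 : IntegrableOn (fun y : ℝ => ‖c y‖ ^ 2 / y ^ 2 + y ^ (-(2 * σ))) (Set.Ioc 0 1) := h1.add h2
  refine Integrable.mono' h4 ?_ ?_
  · exact (hok.meas.norm.mul (by fun_prop)).aestronglyMeasurable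
  · filter_upwards [ae_restrict_mem measurableSet_Ioc] with y hy
    have hy0 : 0 < y := hy.1
    rw [Real.norm_of_nonneg (by positivity)]
    have e1 : y ^ (-σ - 1) = y ^ (-σ) / y := by
      rw [Real.rpow_sub hy0, Real.rpow_one]
    have e2 : y ^ (-(2 * σ)) = (y ^ (-σ)) ^ 2 := by
      rw [← Real.rpow_natCast, ← Real.rpow_mul hy0.le]
      congr 1
      push_cast
      ring
    rw [e1, e2]
    have e3 : ‖c y‖ * (y ^ (-σ) / y) = (‖c y‖ / y) * y ^ (-σ) := by ring
    have e4 : ‖c y‖ ^ 2 / y ^ 2 = (‖c y‖ / y) ^ 2 := by ring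
    rw [e3, e4]
    nlinarith [sq_nonneg (‖c y‖ / y - y ^ (-σ)), sq_nonneg (‖c y‖ / y), sq_nonneg (y ^ (-σ))]

theorem con_int_zero {h : ℝ → ℂ} (hm : Measurable h) {s : ℂ}
    (hi : IntegrableOn (fun y => ‖h y‖ * y ^ (-s.re - 1)) (Set.Ioc 0 1)) :
    IntegrableOn (fun y : ℝ => (y : ℂ) ^ (-s - 1) * h y) (Set.Ioc 0 1) := by
  refine Integrable.mono' hi ((con_meas_cpow _).mul hm).aestronglyMeasurable ?_
  filter_upwards [ae_restrict_mem measurableSet_Ioc] with y hy
  rw [norm_mul, con_norm_cpow hy.1, mul_comm]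

theorem con_int_inf {h : ℝ → ℂ} (hm : Measurable h)
    (hd : ∃ C d : ℝ, 0 < d ∧ ∀ y, 1 ≤ y → ‖h y‖ ≤ C * Real.exp (-(d * y))) (s : ℂ) :
    IntegrableOn (fun y : ℝ => (y : ℂ) ^ (-s - 1) * h y) (Set.Ioi 1) := by
  obtain ⟨C, d, hd0, hd⟩ := hd
  have hC : 0 ≤ C := by
    have h1 := (norm_nonneg _).trans (hd 1 le_rfl)
    have h2 := Real.exp_pos (-(d * 1))
    by_contra h3
    push Not at h3
    nlinarith
  have h1 := integrableOn_rpow_mul_exp_neg_mul_rpow (p := 1) (s := |s.re|) (b := d)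
    (by linarith [abs_nonneg s.re]) one_pos hd0
  have h2 : (fun x : ℝ => x ^ |s.re| * Real.exp (-d * x ^ (1 : ℝ))) =
      fun y : ℝ => y ^ |s.re| * Real.exp (-(d * y)) := by
    funext y
    rw [Real.rpow_one, neg_mul]
  rw [h2] at h1
  refine Integrable.mono' ((h1.mono_set (Set.Ioi_subset_Ioi zero_le_one)).const_mul C)
    ((con_meas_cpow _).mul hm).aestronglyMeasurable ?_
  filter_upwards [ae_restrict_mem measurableSet_Ioi] with y hy
  have hy1 : (1 : ℝ) < y := hy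
  have hy0 : 0 < y := by linarith
  rw [norm_mul, con_norm_cpow hy0]
  have h3 : y ^ (-s.re - 1) ≤ y ^ |s.re| := by
    apply Real.rpow_le_rpow_of_exponent_le hy1.le
    have := neg_abs_le s.re
    linarith
  calc y ^ (-s.re - 1) * ‖h y‖ ≤ y ^ |s.re| * (C * Real.exp (-(d * y))) :=
        mul_le_mul h3 (hd y hy1.le) (norm_nonneg _) (Real.rpow_nonneg hy0.le _)
    _ = C * (y ^ |s.re| * Real.exp (-(d * y))) := by ring

theorem con_mellin_split {f : ℝ → ℂ} {s : ℂ}
    (h0 : IntegrableOn (fun y : ℝ => (y : ℂ) ^ (-s - 1) * f y) (Set.Ioc 0 1))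
    (h1 : IntegrableOn (fun y : ℝ => (y : ℂ) ^ (-s - 1) * f y) (Set.Ioi 1)) :
    mellin f (-s) = (∫ y in Set.Ioc (0 : ℝ) 1, (y : ℂ) ^ (-s - 1) * f y) +
      ∫ y in Set.Ioi (1 : ℝ), (y : ℂ) ^ (-s - 1) * f y := by
  unfold mellin
  have e : Set.Ioi (0 : ℝ) = Set.Ioc 0 1 ∪ Set.Ioi 1 := (Set.Ioc_union_Ioi_eq_Ioi zero_le_one).symm
  rw [e, setIntegral_union Set.Ioc_disjoint_Ioi_same measurableSet_Ioi]
  · simp only [smul_eq_mul]
  · simpa only [smul_eq_mul] using h0
  · simpa only [smul_eq_mul] using h1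

theorem con_mel_pr {c : ℝ → ℂ} {m : ℂ} (hok : MelOK fun y => c y - m)
    (hb : ∃ B : ℝ, ∀ y, 0 < y → ‖c y‖ ≤ B)
    (hd : ∃ C d : ℝ, 0 < d ∧ ∀ y, 1 ≤ y → ‖c y‖ ≤ C * Real.exp (-(d * y))) :
    ∃ B : ℂ → ℂ, DifferentiableOn ℂ B {s | s.re < 1 / 2} ∧
      (∀ s : ℂ, s.re < 0 → B s = s * mellin c (-s)) ∧
      ∀ s : ℂ, 0 < s.re → s.re < 1 / 2 → B s = s * mellin (fun y => c y - m) (-s) := by
  have hcm : Measurable c := by
    have h1 := hok.meas.add_const m
    simpa using h1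
  have hz : ∀ σ : ℝ, σ < 1 / 2 → IntegrableOn (fun y => ‖c y - m‖ * y ^ (-σ - 1)) (Set.Ioc 0 1) :=
    fun σ hσ => con_sq hok hσ
  refine ⟨fun s => s * ((∫ y in Set.Ioc (0 : ℝ) 1, (y : ℂ) ^ (-s - 1) * (c y - m)) +
    ∫ y in Set.Ioi (1 : ℝ), (y : ℂ) ^ (-s - 1) * c y) - m, ?_, ?_, ?_⟩
  · exact (differentiableOn_id.mul ((con_zero_pr hok.meas hz).add
      (con_inf_pr hcm hd).differentiableOn)).sub_const m
  · intro s hs
    have hs0 : s ≠ 0 := by
      intro h
      rw [h] at hs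
      simp at hs
    have i1 : IntegrableOn (fun y : ℝ => (y : ℂ) ^ (-s - 1) * (c y - m)) (Set.Ioc 0 1) :=
      con_int_zero hok.meas (hz s.re (by linarith))
    have i2 : IntegrableOn (fun y : ℝ => (y : ℂ) ^ (-s - 1)) (Set.Ioc 0 1) := by
      have h3 := intervalIntegral.intervalIntegrable_cpow' (a := 0) (b := 1) (r := -s - 1)
        (by simp only [Complex.sub_re, Complex.neg_re, Complex.one_re]; linarith)
      rwa [intervalIntegrable_iff_integrableOn_Ioc_of_le zero_le_one] at h3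
    have e1 : (fun y : ℝ => (y : ℂ) ^ (-s - 1) * c y) =
        fun y : ℝ => (y : ℂ) ^ (-s - 1) * (c y - m) + (y : ℂ) ^ (-s - 1) * m := by
      funext y
      ring
    have i3 : IntegrableOn (fun y : ℝ => (y : ℂ) ^ (-s - 1) * c y) (Set.Ioc 0 1) := by
      rw [e1]
      exact i1.add (i2.mul_const m)
    have i4 := con_int_inf hcm hd s
    rw [con_mellin_split i3 i4]
    have e2 : ∫ y in Set.Ioc (0 : ℝ) 1, (y : ℂ) ^ (-s - 1) = -1 / s := by
      rw [← intervalIntegral.integral_of_le zero_le_one, integral_cpow]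
      · have e3 : -s - 1 + 1 = -s := by ring
        rw [e3]
        simp only [Complex.ofReal_one, Complex.ofReal_zero, Complex.one_cpow]
        rw [Complex.zero_cpow (neg_ne_zero.2 hs0)]
        field_simp
        ring
      · left
        simp only [Complex.sub_re, Complex.neg_re, Complex.one_re]
        linarith
    have e4 : ∫ y in Set.Ioc (0 : ℝ) 1, (y : ℂ) ^ (-s - 1) * c y =
        (∫ y in Set.Ioc (0 : ℝ) 1, (y : ℂ) ^ (-s - 1) * (c y - m)) + (-1 / s) * m := by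
      rw [e1, integral_add i1 (i2.mul_const m), integral_mul_const, e2]
    rw [e4]
    field_simp
    ring
  · intro s hs hs2
    have hs0 : s ≠ 0 := by
      intro h
      rw [h] at hs
      simp at hs
    have i1 : IntegrableOn (fun y : ℝ => (y : ℂ) ^ (-s - 1) * (c y - m)) (Set.Ioc 0 1) :=
      con_int_zero hok.meas (hz s.re hs2)
    have hre : (-s - 1).re < -1 := by
      simp only [Complex.sub_re, Complex.neg_re, Complex.one_re]
      linarith
    have i2 : IntegrableOn (fun y : ℝ => (y : ℂ) ^ (-s - 1)) (Set.Ioi 1) :=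
      integrableOn_Ioi_cpow_of_lt hre zero_lt_one
    have i4 := con_int_inf hcm hd s
    have e1 : (fun y : ℝ => (y : ℂ) ^ (-s - 1) * (c y - m)) =
        fun y : ℝ => (y : ℂ) ^ (-s - 1) * c y - (y : ℂ) ^ (-s - 1) * m := by
      funext y
      ring
    have i5 : IntegrableOn (fun y : ℝ => (y : ℂ) ^ (-s - 1) * (c y - m)) (Set.Ioi 1) := by
      rw [e1]
      exact i4.sub (i2.mul_const m)
    rw [con_mellin_split i1 i5]
    have e2 : ∫ y in Set.Ioi (1 : ℝ), (y : ℂ) ^ (-s - 1) = 1 / s := by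
      rw [integral_Ioi_cpow_of_lt hre zero_lt_one]
      have e3 : -s - 1 + 1 = -s := by ring
      rw [e3]
      simp only [Complex.ofReal_one, Complex.one_cpow]
      field_simp
    have e4 : ∫ y in Set.Ioi (1 : ℝ), (y : ℂ) ^ (-s - 1) * (c y - m) =
        (∫ y in Set.Ioi (1 : ℝ), (y : ℂ) ^ (-s - 1) * c y) - (1 / s) * m := by
      rw [e1, integral_sub i4 (i2.mul_const m), integral_mul_const, e2]
    rw [e4]
    field_simp
    ring

end Pool.Agent.JO
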