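import Pool.Agent.Lib_helper32.JO.N2

/-! # Project JO, part B1: integration over `w` -/

set_option autoImplicit false

namespace Pool.Agent.JO

open Complex MeasureTheory Filter Topology
open UpperHalfPlane hiding I
open scoped MatrixGroups ComplexConjugate ENNReal

theorem fin_meas {k : ℕ} {Wp Wm : ℝ → ℂ} {Yp Ym : ℍ → ℂ → ℂ} (hL : LocData k Wp Wm Yp Ym)
    {Ap Am : ℝ → ℂ} (hp : Measurable Ap) (hm : Measurable Am) :
    Measurable fun q : ℍ × ℝ => ENNReal.ofReal (‖Ap q.2 * Yp q.1 ((1 / 2 : ℝ) + (q.2 : ℂ) * I) +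
      Am q.2 * Ym q.1 ((1 / 2 : ℝ) + (q.2 : ℂ) * I)‖ ^ 2) := by
  refine ENNReal.measurable_ofReal.comp (Measurable.pow_const (Measurable.norm ?_) 2)
  exact ((hp.comp measurable_snd).mul hL.measp).add ((hm.comp measurable_snd).mul hL.measm)

theorem fin_reg (K : ℝ) : MeasurableSet (Reg K) := by
  have h : Continuous fun w : ℍ => Real.cosh (dist UpperHalfPlane.I w) :=
    Real.continuous_cosh.comp (continuous_const.dist continuous_id)
  exact ((isClosed_le continuous_const h).inter (isClosed_le h continuous_const)).measurableSet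

theorem fin_int_pr {k : ℕ} {Wp Wm : ℝ → ℂ} {Yp Ym : ℍ → ℂ → ℂ} (hL : LocData k Wp Wm Yp Ym)
    {β : ℝ → ℝ} (hβm : Measurable β) {c0 : ℝ} (hc0 : 0 < c0)
    (hβ : ∀ t, 1 / 4 ≤ t → t ≤ 9 / 2 → c0 ≤ β t) :
    ∃ C K₀ : ℝ, 0 ≤ C ∧ 1 ≤ K₀ ∧ ∀ {V : Type} (T : Finset V) (Ap Am : V → ℝ → ℂ),
      (∀ v, Measurable (Ap v)) → (∀ v, Measurable (Am v)) → ∀ M : ℍ → ℝ≥0∞,
      (∀ w : ℍ, ∑ v ∈ T, ∫⁻ a in Set.Ioc 0 (2 * Real.pi), ∫⁻ κ : ℝ,
        ENNReal.ofReal (‖Ap v κ * Yp (kK a • w) ((1 / 2 : ℝ) + (κ : ℂ) * I) +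
          Am v κ * Ym (kK a • w) ((1 / 2 : ℝ) + (κ : ℂ) * I)‖ ^ 2) ≤ M w) →
      ∀ K : ℝ, K₀ ≤ K → ∑ v ∈ T, ∫⁻ κ in {κ : ℝ | K ≤ |κ| ∧ |κ| ≤ 2 * K},
          ENNReal.ofReal (‖Ap v κ * Yp UpperHalfPlane.I ((1 / 2 : ℝ) + (κ : ℂ) * I) +
            Am v κ * Ym UpperHalfPlane.I ((1 / 2 : ℝ) + (κ : ℂ) * I)‖ ^ 2 *
              Real.exp (Real.pi * |κ|)) ≤
        ENNReal.ofReal (C * K ^ (2 * (k : ℝ) - 2)) *
          ∫⁻ w : ℍ, ENNReal.ofReal (β (Real.cosh (dist UpperHalfPlane.I w) / K ^ 2)) * M w := by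
  obtain ⟨c, K₀, hc, hK₀, hlow⟩ := hL.lower
  refine ⟨(2 * Real.pi * c0 * c)⁻¹, K₀, by positivity, hK₀, ?_⟩
  intro V T Ap Am hAp hAm M hM K hK
  have hK0 : 0 < K := by linarith
  set Φ : V → ℍ → ℝ → ℝ≥0∞ := fun v w κ =>
    ENNReal.ofReal (‖Ap v κ * Yp w ((1 / 2 : ℝ) + (κ : ℂ) * I) +
      Am v κ * Ym w ((1 / 2 : ℝ) + (κ : ℂ) * I)‖ ^ 2) with hΦ
  set b : ℍ → ℝ≥0∞ := fun w => ENNReal.ofReal (β (Real.cosh (dist UpperHalfPlane.I w) / K ^ 2))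
    with hb
  have hbm : Measurable b := by
    refine ENNReal.measurable_ofReal.comp (hβm.comp ?_)
    have h : Continuous fun w : ℍ => Real.cosh (dist UpperHalfPlane.I w) / K ^ 2 :=
      (Real.continuous_cosh.comp (continuous_const.dist continuous_id)).div_const _
    exact h.measurable
  have hΦm : ∀ v, Measurable fun q : ℍ × ℝ => Φ v q.1 q.2 := fun v => fin_meas hL (hAp v) (hAm v)
  have hΦm' : ∀ v, Measurable fun w : ℍ => ∫⁻ κ : ℝ, Φ v w κ :=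
    fun v => (hΦm v).lintegral_prod_right'
  set f : V → ℍ → ℝ≥0∞ := fun v w => b w * ∫⁻ κ : ℝ, Φ v w κ with hf
  have hfm : ∀ v, Measurable (f v) := fun v => hbm.mul (hΦm' v)
  -- step 1
  have h1 : ∑ v ∈ T, ENNReal.ofReal (2 * Real.pi) * ∫⁻ w : ℍ, f v w ≤ ∫⁻ w : ℍ, b w * M w := by
    have e1 : ∀ v ∈ T, ENNReal.ofReal (2 * Real.pi) * ∫⁻ w : ℍ, f v w =
        ∫⁻ w : ℍ, ∫⁻ a in Set.Ioc 0 (2 * Real.pi), f v (kK a • w) :=
      fun v _ => (rot_lint (hfm v)).symm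
    rw [Finset.sum_congr rfl e1, ← lintegral_finsetSum]
    · refine lintegral_mono fun w => ?_
      have e2 : ∀ v ∈ T, ∫⁻ a in Set.Ioc 0 (2 * Real.pi), f v (kK a • w) =
          b w * ∫⁻ a in Set.Ioc 0 (2 * Real.pi), ∫⁻ κ : ℝ, Φ v (kK a • w) κ := by
        intro v _
        rw [← lintegral_const_mul' _ _ ENNReal.ofReal_ne_top]
        refine lintegral_congr fun a => ?_
        simp only [hf, hb, dist_kK]
      simp only
      rw [Finset.sum_congr rfl e2, ← Finset.mul_sum]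
      exact mul_le_mul_right (hM w) _
    · intro v _
      have h3 : Measurable fun q : ℍ × ℝ => f v (kK q.2 • q.1) := (hfm v).comp kK_cont.measurable
      exact h3.lintegral_prod_right'
  -- step 2
  have h2 : ∀ v, ENNReal.ofReal (c0 * (c * K ^ (2 - 2 * (k : ℝ)))) *
      ∫⁻ κ in {κ : ℝ | K ≤ |κ| ∧ |κ| ≤ 2 * K},
          ENNReal.ofReal (‖Ap v κ * Yp UpperHalfPlane.I ((1 / 2 : ℝ) + (κ : ℂ) * I) +
            Am v κ * Ym UpperHalfPlane.I ((1 / 2 : ℝ) + (κ : ℂ) * I)‖ ^ 2 *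
              Real.exp (Real.pi * |κ|)) ≤ ∫⁻ w : ℍ, f v w := by
    intro v
    have hset : MeasurableSet {κ : ℝ | K ≤ |κ| ∧ |κ| ≤ 2 * K} := by
      have h : Continuous fun κ : ℝ => |κ| := continuous_abs
      exact ((isClosed_le continuous_const h).inter (isClosed_le h continuous_const)).measurableSet
    calc ENNReal.ofReal (c0 * (c * K ^ (2 - 2 * (k : ℝ)))) *
      ∫⁻ κ in {κ : ℝ | K ≤ |κ| ∧ |κ| ≤ 2 * K},
          ENNReal.ofReal (‖Ap v κ * Yp UpperHalfPlane.I ((1 / 2 : ℝ) + (κ : ℂ) * I) +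
            Am v κ * Ym UpperHalfPlane.I ((1 / 2 : ℝ) + (κ : ℂ) * I)‖ ^ 2 *
              Real.exp (Real.pi * |κ|))
        = ENNReal.ofReal c0 * ∫⁻ κ in {κ : ℝ | K ≤ |κ| ∧ |κ| ≤ 2 * K},
          ENNReal.ofReal (c * K ^ (2 - 2 * (k : ℝ)) * Real.exp (Real.pi * |κ|) *
            ‖Ap v κ * Yp UpperHalfPlane.I ((1 / 2 : ℝ) + (κ : ℂ) * I) +
            Am v κ * Ym UpperHalfPlane.I ((1 / 2 : ℝ) + (κ : ℂ) * I)‖ ^ 2) := by
          rw [ENNReal.ofReal_mul hc0.le, mul_assoc,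
            ← lintegral_const_mul' _ _ ENNReal.ofReal_ne_top]
          congr 1
          refine lintegral_congr fun κ => ?_
          rw [← ENNReal.ofReal_mul (by positivity)]
          congr 1
          ring
      _ ≤ ENNReal.ofReal c0 * ∫⁻ κ in {κ : ℝ | K ≤ |κ| ∧ |κ| ≤ 2 * K}, ∫⁻ w in Reg K, Φ v w κ := by
          refine mul_le_mul_right (setLIntegral_mono' hset fun κ hκ => ?_) _
          exact hlow K hK κ hκ.1 hκ.2 (Ap v κ) (Am v κ)
      _ ≤ ENNReal.ofReal c0 * ∫⁻ κ : ℝ, ∫⁻ w in Reg K, Φ v w κ :=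
          mul_le_mul_right (setLIntegral_le_lintegral _ _) _
      _ = ENNReal.ofReal c0 * ∫⁻ w in Reg K, ∫⁻ κ : ℝ, Φ v w κ := by
          congr 1
          rw [lintegral_lintegral_swap]
          exact ((hΦm v).comp measurable_swap).aemeasurable
      _ = ∫⁻ w in Reg K, ENNReal.ofReal c0 * ∫⁻ κ : ℝ, Φ v w κ :=
          (lintegral_const_mul' _ _ ENNReal.ofReal_ne_top).symm
      _ ≤ ∫⁻ w in Reg K, f v w := by
          refine setLIntegral_mono' (fin_reg K) fun w hw => ?_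
          refine mul_le_mul_left ?_ _
          apply ENNReal.ofReal_le_ofReal
          have hw1 : K ^ 2 / 4 ≤ Real.cosh (dist UpperHalfPlane.I w) := hw.1
          have hw2 : Real.cosh (dist UpperHalfPlane.I w) ≤ 9 / 2 * K ^ 2 := hw.2
          apply hβ
          · rw [le_div_iff₀ (by positivity)]
            linarith
          · rw [div_le_iff₀ (by positivity)]
            exact hw2
      _ ≤ ∫⁻ w : ℍ, f v w := setLIntegral_le_lintegral _ _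
  -- step 3
  set L : V → ℝ≥0∞ := fun v => ∫⁻ κ in {κ : ℝ | K ≤ |κ| ∧ |κ| ≤ 2 * K},
          ENNReal.ofReal (‖Ap v κ * Yp UpperHalfPlane.I ((1 / 2 : ℝ) + (κ : ℂ) * I) +
            Am v κ * Ym UpperHalfPlane.I ((1 / 2 : ℝ) + (κ : ℂ) * I)‖ ^ 2 *
              Real.exp (Real.pi * |κ|)) with hLdef
  have h3 : ENNReal.ofReal (2 * Real.pi * (c0 * (c * K ^ (2 - 2 * (k : ℝ))))) * ∑ v ∈ T, L v ≤
      ∫⁻ w : ℍ, b w * M w := by
    refine le_trans ?_ h1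
    rw [Finset.mul_sum]
    refine Finset.sum_le_sum fun v _ => ?_
    rw [ENNReal.ofReal_mul (by positivity), mul_assoc]
    exact mul_le_mul_right (h2 v) _
  have h4 : (2 * Real.pi * c0 * c)⁻¹ * K ^ (2 * (k : ℝ) - 2) *
      (2 * Real.pi * (c0 * (c * K ^ (2 - 2 * (k : ℝ))))) = 1 := by
    have e1 : K ^ (2 * (k : ℝ) - 2) * K ^ (2 - 2 * (k : ℝ)) = 1 := by
      rw [← Real.rpow_add hK0]
      have e2 : 2 * (k : ℝ) - 2 + (2 - 2 * (k : ℝ)) = 0 := by ring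
      rw [e2, Real.rpow_zero]
    have hpi := Real.pi_pos
    calc (2 * Real.pi * c0 * c)⁻¹ * K ^ (2 * (k : ℝ) - 2) *
      (2 * Real.pi * (c0 * (c * K ^ (2 - 2 * (k : ℝ)))))
        = ((2 * Real.pi * c0 * c)⁻¹ * (2 * Real.pi * c0 * c)) *
          (K ^ (2 * (k : ℝ) - 2) * K ^ (2 - 2 * (k : ℝ))) := by ring
      _ = 1 := by rw [e1, inv_mul_cancel₀ (by positivity), one_mul]
  calc ∑ v ∈ T, L v = ENNReal.ofReal ((2 * Real.pi * c0 * c)⁻¹ * K ^ (2 * (k : ℝ) - 2)) *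
        (ENNReal.ofReal (2 * Real.pi * (c0 * (c * K ^ (2 - 2 * (k : ℝ))))) * ∑ v ∈ T, L v) := by
        rw [← mul_assoc, ← ENNReal.ofReal_mul (by positivity), h4, ENNReal.ofReal_one, one_mul]
    _ ≤ _ := mul_le_mul_right h3 _

end Pool.Agent.JO
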