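import Pool.Agent.Lib_helper32.JO.N3

/-! # Project JO, part B1: Bessel's inequality for the Mellin transforms -/

set_option autoImplicit false

namespace Pool.Agent.JO

open Complex MeasureTheory Filter Topology
open UpperHalfPlane hiding I
open scoped MatrixGroups ComplexConjugate ENNReal

variable {N : ℕ} [NeZero N] {χ : DirichletCharacter ℂ N} {k : ℕ} {lam : ℕ → ℂ} {u : ℍ → ℂ}

theorem inq_g1_meas (hu : WForm N χ k lam u) (w : ℍ) (v : ZMod N × ZMod N) :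
    Measurable fun x : ℂ => g1 (N := N) k u w x v :=
  (cf_meas_x hu w v).sub_const _

theorem inq_g1_bdd (hu : WForm N χ k lam u) (w : ℍ) :
    ∃ B : ℝ, ∀ (x : ℂ) (v : ZMod N × ZMod N), ‖g1 (N := N) k u w x v‖ ≤ B := by
  obtain ⟨B, -, hB⟩ := cf_bdd hu
  refine ⟨B + ‖mean (PsiF (N := N) k u w)‖, fun x v => ?_⟩
  exact (norm_sub_le _ _).trans (add_le_add (hB w x v) le_rfl)

theorem inq_bd (hu : WForm N χ k lam u) (w : ℍ) :
    ∃ B : ℝ, ∀ (s : QN N) (g : SL(2, ℝ)), ‖PsiF (N := N) k u w s g‖ ≤ B := by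
  obtain ⟨B, -, hB⟩ := psi_bdd hu
  exact ⟨B, fun s g => hB w s g⟩

theorem gw_ae_pr (hu : WForm N χ k lam u) (w : ℍ) :
    ∀ᵐ a ∂(volume.restrict (Set.Ioc 0 (2 * Real.pi))), ∀ v ∈ PV N,
      MelOK (gw (N := N) k u w a v) := by
  rw [Finset.eventually_all]
  intro v hv
  obtain ⟨B, hB⟩ := inq_g1_bdd hu w
  have h1 := (hec_step (psi_mf hu w) (inq_bd hu w) 1 (PP := ∅) (by simp)).1 v hv
  exact (pol_mel (inq_g1_meas hu w v) h1 ⟨B, fun x => hB x v⟩).1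

omit [NeZero N] in
theorem inq_c2_meas {PP : Finset ℕ} (l : ℂ) {g : ℂ → ZMod N × ZMod N → ℂ}
    (hg : ∀ v, Measurable fun x => g x v) (v : ZMod N × ZMod N) :
    Measurable fun x => c2 l PP g x v := by
  unfold c2
  refine ((hg v).const_mul l).add (Finset.measurable_fun_sum _ fun p _ => ?_)
  refine ((((hg _).comp (measurable_id.div_const _)).const_mul _).add (hg v)).add
    (((hg _).comp (measurable_id.const_mul _)).const_mul _)

omit [NeZero N] in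
theorem inq_c2_bdd {PP : Finset ℕ} (l : ℂ) {g : ℂ → ZMod N × ZMod N → ℂ}
    (hg : ∃ B : ℝ, ∀ x v, ‖g x v‖ ≤ B) : ∃ B : ℝ, ∀ x v, ‖c2 l PP g x v‖ ≤ B := by
  obtain ⟨B, hB⟩ := hg
  refine ⟨‖l‖ * B + ∑ p ∈ PP, (‖(p : ℂ)⁻¹‖ * B + B + ‖(p : ℂ)‖ * B), fun x v => ?_⟩
  unfold c2
  refine (norm_add_le _ _).trans (add_le_add ?_ ((norm_sum_le _ _).trans
    (Finset.sum_le_sum fun p _ => ?_)))
  · rw [norm_mul]
    exact mul_le_mul_of_nonneg_left (hB _ _) (norm_nonneg _)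
  · refine (norm_add_le _ _).trans (add_le_add ((norm_add_le _ _).trans (add_le_add ?_ (hB _ _))) ?_)
    · rw [norm_mul]
      exact mul_le_mul_of_nonneg_left (hB _ _) (norm_nonneg _)
    · rw [norm_mul]
      exact mul_le_mul_of_nonneg_left (hB _ _) (norm_nonneg _)

theorem inq_pr (hu : WForm N χ k lam u) (w : ℍ) (l : ℂ) {PP : Finset ℕ}
    (hPP : ∀ p ∈ PP, p.Prime ∧ ¬ p ∣ N) :
    ∑ v ∈ PV N, ∫⁻ a in Set.Ioc 0 (2 * Real.pi), ∫⁻ κ : ℝ,
        ENNReal.ofReal (‖App1 l PP (fun v' κ' => melL2 (gw (N := N) k u w a v') κ') v κ‖ ^ 2) ≤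
      ENNReal.ofReal (4 * Real.pi / N) * nG (MP l PP (PsiF (N := N) k u w)) := by
  have hN : (0 : ℝ) < N := by exact_mod_cast Nat.pos_of_ne_zero (NeZero.ne N)
  have hpi := Real.pi_pos
  obtain ⟨-, hs2, hs3⟩ := hec_step (psi_mf hu w) (inq_bd hu w) l hPP
  obtain ⟨B, hB⟩ := inq_g1_bdd hu w
  have hs2' : ∀ v ∈ PV N, Integrable fun x : ℂ => ‖c2 l PP (g1 (N := N) k u w) x v‖ ^ 2 := hs2
  have hs3' : ENNReal.ofReal (2 * N * ∑ v ∈ PV N,
        ∫ x : ℂ, ‖c2 l PP (g1 (N := N) k u w) x v‖ ^ 2) ≤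
      2 * nG (MP l PP (PsiF (N := N) k u w)) := hs3
  obtain ⟨B2, hB2⟩ := inq_c2_bdd (N := N) (PP := PP) l ⟨B, hB⟩
  have h1 : ∀ v ∈ PV N, ∫⁻ a in Set.Ioc 0 (2 * Real.pi), ∫⁻ κ : ℝ,
        ENNReal.ofReal (‖App1 l PP (fun v' κ' => melL2 (gw (N := N) k u w a v') κ') v κ‖ ^ 2) =
      ENNReal.ofReal (4 * Real.pi * ∫ x : ℂ, ‖c2 l PP (g1 (N := N) k u w) x v‖ ^ 2) := by
    intro v hv
    rw [← (pol_mel (inq_c2_meas l (fun v' => inq_g1_meas hu w v') v) (hs2' v hv)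
      ⟨B2, fun x => hB2 x v⟩).2]
    refine lintegral_congr_ae ?_
    filter_upwards [gw_ae_pr hu w] with a ha
    refine lintegral_congr_ae ?_
    have h2 := (hm_mel hPP l (g := g1 (N := N) k u w) (a := a) ha ⟨B, fun x v' _ => hB x v'⟩ hv).2
    filter_upwards [h2] with κ hκ
    rw [hκ]
    rfl
  rw [Finset.sum_congr rfl h1, ← ENNReal.ofReal_sum_of_nonneg (fun v _ => by positivity),
    ← Finset.mul_sum]
  have e1 : 4 * Real.pi * ∑ v ∈ PV N, ∫ x : ℂ, ‖c2 l PP (g1 (N := N) k u w) x v‖ ^ 2 =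
      (2 * Real.pi / N) * (2 * N * ∑ v ∈ PV N, ∫ x : ℂ, ‖c2 l PP (g1 (N := N) k u w) x v‖ ^ 2) := by
    field_simp
    ring
  have e2 : ENNReal.ofReal (4 * Real.pi / N) = ENNReal.ofReal (2 * Real.pi / N) * 2 := by
    rw [show (2 : ℝ≥0∞) = ENNReal.ofReal 2 by norm_num, ← ENNReal.ofReal_mul (by positivity)]
    congr 1
    ring
  rw [e1, e2, ENNReal.ofReal_mul (by positivity), mul_assoc (ENNReal.ofReal (2 * Real.pi / N)) 2]
  exact mul_le_mul_right hs3' _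

end Pool.Agent.JO
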