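import Pool.Agent.Lib_helper32.JO.N0

/-! # Project JO, part B1: Iwasawa coordinates -/

set_option autoImplicit false

namespace Pool.Agent.JO

open Complex MeasureTheory Filter Topology
open UpperHalfPlane hiding I
open scoped MatrixGroups ComplexConjugate ENNReal

theorem iwa_gg_eq (z : ℍ) (a : ℝ) : gg z a = gg z 0 * kK a := by
  ext i j
  fin_cases i <;> fin_cases j <;> simp [gg, kK, Matrix.mul_apply, Fin.sum_univ_two] <;> ring

theorem iwa_kK_mul (a b : ℝ) : kK a * kK b = kK (a + b) := by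
  ext i j
  fin_cases i <;> fin_cases j <;>
    simp [kK, Matrix.mul_apply, Fin.sum_univ_two, Real.cos_add, Real.sin_add] <;> ring

theorem iwa_kK_zero : kK 0 = 1 := by
  ext i j
  fin_cases i <;> fin_cases j <;> simp [kK]

theorem gg_I_zero_pr : gg UpperHalfPlane.I 0 = 1 := by
  ext i j
  fin_cases i <;> fin_cases j <;> simp [gg]

theorem iwa_smul_coe (g : SL(2, ℝ)) (z : ℍ) :
    ((g • z : ℍ) : ℂ) = ((g 0 0 : ℝ) * (z : ℂ) + (g 0 1 : ℝ)) / ((g 1 0 : ℝ) * (z : ℂ) + (g 1 1 : ℝ)) := by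
  rw [UpperHalfPlane.specialLinearGroup_apply g z]
  rfl

theorem iwa_gg_smul (z w : ℍ) : ((gg z 0 • w : ℍ) : ℂ) = (z.re : ℂ) + z.im * (w : ℂ) := by
  rw [iwa_smul_coe]
  have h : (0 : ℝ) < √z.im := Real.sqrt_pos.2 z.im_pos
  have h2 : ((√z.im : ℝ) : ℂ) ≠ 0 := by exact_mod_cast h.ne'
  have h3 : ((√z.im : ℝ) : ℂ) * ((√z.im : ℝ) : ℂ) = (z.im : ℂ) := by
    rw [← Complex.ofReal_mul, Real.mul_self_sqrt z.im_pos.le]
  simp only [gg, Matrix.SpecialLinearGroup.coe_mk, Matrix.of_apply, Matrix.cons_val', Matrix.cons_val_zero,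
    Matrix.cons_val_one, Real.cos_zero, Real.sin_zero]
  push_cast
  field_simp
  simp
  have h4 : ((√z.im : ℝ) : ℂ) ^ 2 = (z.im : ℂ) := by rw [sq, h3]
  rw [h4]
  ring

theorem gg_smul_re_pr (z w : ℍ) : (gg z 0 • w : ℍ).re = z.re + z.im * w.re := by
  have h := congrArg Complex.re (iwa_gg_smul z w)
  simpa using h

theorem gg_smul_im_pr (z w : ℍ) : (gg z 0 • w : ℍ).im = z.im * w.im := by
  have h := congrArg Complex.im (iwa_gg_smul z w)
  simpa using h

theorem iwa_gg_zero_I (z : ℍ) : gg z 0 • UpperHalfPlane.I = z := by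
  apply UpperHalfPlane.ext
  rw [iwa_gg_smul]
  apply Complex.ext <;> simp

theorem gg_mul_gg_pr (z w : ℍ) : gg z 0 * gg w 0 = gg (gg z 0 • w) 0 := by
  have hz : (0 : ℝ) < √z.im := Real.sqrt_pos.2 z.im_pos
  have hw : (0 : ℝ) < √w.im := Real.sqrt_pos.2 w.im_pos
  have e1 : √(z.im * w.im) = √z.im * √w.im := Real.sqrt_mul z.im_pos.le _
  have e2 : z.im = √z.im * √z.im := (Real.mul_self_sqrt z.im_pos.le).symm
  have e3 := gg_smul_im_pr z w
  have e4 := gg_smul_re_pr z w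
  generalize gg z 0 • w = q at e3 e4
  ext i j
  fin_cases i <;> fin_cases j
  · simp only [gg, e3, e4, e1]
    simp [Matrix.mul_apply, Fin.sum_univ_two]
  · simp only [gg, e3, e4, e1]
    simp [Matrix.mul_apply, Fin.sum_univ_two]
    field_simp
    rw [Real.sq_sqrt z.im_pos.le]
    ring
  · simp only [gg, e3, e4, e1]
    simp [Matrix.mul_apply, Fin.sum_univ_two]
  · simp only [gg, e3, e4, e1]
    simp [Matrix.mul_apply, Fin.sum_univ_two]
    exact mul_comm _ _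

/-- the elements fixing `i` -/
theorem iwa_stab (g : SL(2, ℝ)) (h : g • UpperHalfPlane.I = UpperHalfPlane.I) : ∃ a, g = kK a := by
  have h1 : (((g • UpperHalfPlane.I : ℍ)) : ℂ) = Complex.I := by rw [h]; rfl
  rw [iwa_smul_coe] at h1
  have hd : ((g 1 0 : ℝ) : ℂ) * (UpperHalfPlane.I : ℂ) + (g 1 1 : ℝ) ≠ 0 := by
    intro h0
    rw [h0, div_zero] at h1
    exact Complex.I_ne_zero h1.symm
  rw [div_eq_iff hd] at h1
  have hI : ((UpperHalfPlane.I : ℍ) : ℂ) = Complex.I := rfl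
  rw [hI] at h1
  have hre := congrArg Complex.re h1
  have him := congrArg Complex.im h1
  simp at hre him
  have hdet := g.det_coe
  rw [Matrix.det_fin_two] at hdet
  have h3 : (g 1 1) ^ 2 + (g 1 0) ^ 2 = 1 := by
    have e1 : g.1 0 0 = g.1 1 1 := him
    have e2 : g.1 0 1 = -g.1 1 0 := hre
    rw [e1, e2] at hdet
    nlinarith
  obtain ⟨a, ha⟩ : ∃ a : ℝ, Real.cos a = g 1 1 ∧ Real.sin a = -(g 1 0) := by
    refine ⟨Complex.arg (⟨g 1 1, -(g 1 0)⟩ : ℂ), ?_⟩
    have hn : ‖(⟨g 1 1, -(g 1 0)⟩ : ℂ)‖ = 1 := by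
      rw [Complex.norm_def, Complex.normSq_mk, Real.sqrt_eq_one]
      nlinarith
    have hne : (⟨g 1 1, -(g 1 0)⟩ : ℂ) ≠ 0 := by
      intro h0
      rw [h0, norm_zero] at hn
      exact zero_ne_one hn
    constructor
    · rw [Complex.cos_arg hne, hn, div_one]
    · rw [Complex.sin_arg, hn, div_one]
  refine ⟨a, ?_⟩
  ext i j
  fin_cases i <;> fin_cases j
  · simp [kK, ha.1, him]
  · simp [kK, ha.2, hre]
  · simp [kK, ha.2]
  · simp [kK, ha.1]

theorem iwa_exists (g : SL(2, ℝ)) : ∃ a, g = gg (g • UpperHalfPlane.I) a := by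
  obtain ⟨a, ha⟩ := iwa_stab ((gg (g • UpperHalfPlane.I) 0)⁻¹ * g) (by
    rw [mul_smul, inv_smul_eq_iff, iwa_gg_zero_I])
  refine ⟨a, ?_⟩
  rw [iwa_gg_eq, ← ha, mul_inv_cancel_left]

/-- `k(a) g_w = g_{k(a) w} k(a')` -/
theorem iwa_kK_gg (a : ℝ) (w : ℍ) : ∃ a', kK a * gg w 0 = gg (kK a • w) a' := by
  obtain ⟨a', h⟩ := iwa_exists (kK a * gg w 0)
  refine ⟨a', ?_⟩
  rw [mul_smul, iwa_gg_zero_I] at h
  exact h

theorem kK_smul_I_pr (a : ℝ) : kK a • UpperHalfPlane.I = UpperHalfPlane.I := by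
  apply UpperHalfPlane.ext
  rw [iwa_smul_coe]
  have hI : ((UpperHalfPlane.I : ℍ) : ℂ) = Complex.I := rfl
  have h1 : ((Real.cos a : ℝ) : ℂ) - (Real.sin a : ℝ) * Complex.I ≠ 0 := by
    intro h
    have hre := congrArg Complex.re h
    have him := congrArg Complex.im h
    simp [Complex.cos_ofReal_re, Complex.sin_ofReal_re, Complex.cos_ofReal_im,
      Complex.sin_ofReal_im] at hre him
    have := Real.sin_sq_add_cos_sq a
    rw [hre, him] at this
    norm_num at this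
  rw [hI]
  simp only [kK, Matrix.SpecialLinearGroup.coe_mk, Matrix.of_apply, Matrix.cons_val', Matrix.cons_val_zero,
    Matrix.cons_val_one]
  rw [div_eq_iff]
  · push_cast
    linear_combination (Complex.sin a) * Complex.I_mul_I
  · intro h
    apply h1
    rw [← h]
    push_cast
    ring

theorem dist_kK_pr (a : ℝ) (w : ℍ) :
    dist UpperHalfPlane.I (kK a • w) = dist UpperHalfPlane.I w := by
  conv_lhs => rw [← kK_smul_I_pr a]
  exact dist_smul (kK a) _ _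

/-- `K`-type -/
theorem iwa_juI_mul (g : SL(2, ℝ)) (a : ℝ) : juI (g * kK a) = juI g * cexp (-(a * I)) := by
  have h1 : jI (g * kK a) = jI g * cexp (-(a * I)) := by
    have e : cexp (-(a * I)) = Complex.cos a - Complex.sin a * I := by
      rw [show -((a : ℂ) * I) = (-a : ℂ) * I by ring, Complex.exp_mul_I, Complex.cos_neg, Complex.sin_neg]
      ring
    rw [e]
    unfold jI
    simp [kK, Matrix.mul_apply, Fin.sum_univ_two]
    linear_combination ((g 1 0 : ℂ) * Complex.sin a) * Complex.I_mul_I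
  have h2 : ‖cexp (-(a * I))‖ = 1 := by
    rw [show -((a : ℂ) * I) = ((-a : ℝ) : ℂ) * I by push_cast; ring]
    exact Complex.norm_exp_ofReal_mul_I _
  unfold juI
  rw [h1, norm_mul, h2, mul_one]
  ring

theorem iwa_liftK_kK {N : ℕ} (k : ℕ) (u : ℍ → ℂ) (s : QN N) (g : SL(2, ℝ)) (a : ℝ) :
    liftK k u s (g * kK a) = cexp (k * a * I) * liftK k u s g := by
  unfold liftK
  rw [← mul_assoc, iwa_juI_mul, mul_smul, kK_smul_I_pr, mul_pow, mul_inv, ← Complex.exp_nat_mul,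
    ← Complex.exp_neg]
  have e : -((k : ℂ) * -((a : ℂ) * I)) = (k : ℂ) * a * I := by ring
  rw [e]
  ring

/-- rotation: `ph` depends on `k, w, a` only -/
theorem psi_rot_pr {N : ℕ} (k : ℕ) (u : ℍ → ℂ) (w : ℍ) (a : ℝ) : ∃ ph : ℂ, ‖ph‖ = 1 ∧
    ∀ (s : QN N) (g : SL(2, ℝ)), PsiF k u w s (g * kK a) = ph * PsiF k u (kK a • w) s g := by
  obtain ⟨a', ha'⟩ := iwa_kK_gg a w
  refine ⟨cexp (k * a * I) * conj (cexp (k * a' * I)), ?_, ?_⟩
  · rw [norm_mul, RCLike.norm_conj]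
    have e1 : ∀ t : ℝ, ‖cexp (k * t * I)‖ = 1 := by
      intro t
      rw [show ((k : ℂ) * t * I) = ((k * t : ℝ) : ℂ) * I by push_cast; ring]
      exact Complex.norm_exp_ofReal_mul_I _
    rw [e1, e1, one_mul]
  · intro s g
    unfold PsiF
    have e1 : g * kK a * gg w 0 = g * gg (kK a • w) 0 * kK a' := by
      rw [mul_assoc, ha', iwa_gg_eq _ a', mul_assoc]
    rw [e1, iwa_liftK_kK, iwa_liftK_kK, map_mul]
    ring

end Pool.Agent.JO
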