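import Pool.Agent.Lib_helper32.JO.N5

/-! # Project JO, part B1: the local factors -/

set_option autoImplicit false

namespace Pool.Agent.JO

open Complex MeasureTheory Filter Topology
open UpperHalfPlane hiding I
open scoped MatrixGroups ComplexConjugate ENNReal

variable {N : ℕ} [NeZero N] {χ : DirichletCharacter ℂ N} {k : ℕ} {lam : ℕ → ℂ} {u : ℍ → ℂ}

theorem loc_one {e : ℕ} {Wp Wm : ℝ → ℂ} {Yp Ym : ℍ → ℂ → ℂ} (hu : WForm N χ k lam u)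
    (he : HasExp Wp Wm (liftK (N := N) k u)) (hL : LocData e Wp Wm Yp Ym) {v : ZMod N × ZMod N}
    (hv : v ∈ PV N) :
    ∃ Ap Am : ℝ → ℂ, Measurable Ap ∧ Measurable Am ∧ ∀ w ∈ SS N k u, ∀ᵐ κ : ℝ,
        melL2 (gw (N := N) k u w 0 v) κ = Ap κ * Yp w ((1 / 2 : ℝ) + (κ : ℂ) * I) +
          Am κ * Ym w ((1 / 2 : ℝ) + (κ : ℂ) * I) := by
  obtain ⟨r, h0, hr⟩ := fou hu he hv
  obtain ⟨B, hB0, hB⟩ := cf_bdd hu
  obtain ⟨C, d, hd0, hd⟩ := cf_decay hu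
  obtain ⟨Dp, Dm, hD⟩ := dir_mel hL.cp hL.cm hL.sqp hL.sqm h0
    (c := fun w y => CF (PsiF (N := N) k u w) (xa 0 y) v) hr ⟨B, fun y _ => hB _ _ _⟩
    ⟨C, d, hd0, fun y hy => hd _ _ y _ hy⟩
  obtain ⟨Ap, Am, h1, h2, h3⟩ := rel_line hL
    (c := fun w y => CF (PsiF (N := N) k u w) (xa 0 y) v)
    (m := fun w => mean (PsiF (N := N) k u w)) (ss_ae hu) (ss_I hu)
    (fun w hw => hw v hv) (fun w => ⟨B, fun y _ => hB _ _ _⟩)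
    (fun w => ⟨C, d, hd0, fun y hy => hd _ _ y _ hy⟩) hD
  exact ⟨Ap, Am, h1, h2, h3⟩

theorem loc_main_pr {e : ℕ} {Wp Wm : ℝ → ℂ} {Yp Ym : ℍ → ℂ → ℂ} (hu : WForm N χ k lam u)
    (he : HasExp Wp Wm (liftK (N := N) k u)) (hL : LocData e Wp Wm Yp Ym) :
    ∃ Ap Am : ZMod N × ZMod N → ℝ → ℂ, (∀ v, Measurable (Ap v)) ∧ (∀ v, Measurable (Am v)) ∧
      ∀ v ∈ PV N, ∀ w ∈ SS N k u, ∀ᵐ κ : ℝ,
        melL2 (gw (N := N) k u w 0 v) κ = Ap v κ * Yp w ((1 / 2 : ℝ) + (κ : ℂ) * I) +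
          Am v κ * Ym w ((1 / 2 : ℝ) + (κ : ℂ) * I) := by
  have H : ∀ v : ZMod N × ZMod N, ∃ Ap Am : ℝ → ℂ, Measurable Ap ∧ Measurable Am ∧
      (v ∈ PV N → ∀ w ∈ SS N k u, ∀ᵐ κ : ℝ,
        melL2 (gw (N := N) k u w 0 v) κ = Ap κ * Yp w ((1 / 2 : ℝ) + (κ : ℂ) * I) +
          Am κ * Ym w ((1 / 2 : ℝ) + (κ : ℂ) * I)) := by
    intro v
    by_cases hv : v ∈ PV N
    · obtain ⟨Ap, Am, h1, h2, h3⟩ := loc_one hu he hL hv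
      exact ⟨Ap, Am, h1, h2, fun _ => h3⟩
    · exact ⟨fun _ => 0, fun _ => 0, measurable_const, measurable_const, fun h => absurd h hv⟩
  choose Ap Am h1 h2 h3 using H
  exact ⟨Ap, Am, h1, h2, fun v hv => h3 v hv⟩

end Pool.Agent.JO
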