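import Pool.Agent.Lib_helper32.JO.N6

/-! # Project JO, part B1: the theorem -/

set_option autoImplicit false

namespace Pool.Agent.JO

open Complex MeasureTheory Filter Topology
open UpperHalfPlane hiding I
open scoped MatrixGroups ComplexConjugate ENNReal

variable {N : ℕ} [NeZero N] {χ : DirichletCharacter ℂ N} {k : ℕ} {lam : ℕ → ℂ} {u : ℍ → ℂ}

theorem mai_xa (y : ℝ) : xa 0 y = I / ((√y : ℝ) : ℂ) := by
  unfold xa
  simp

theorem mai_aM (hu : WForm N χ k lam u) (v : ZMod N × ZMod N) :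
    aM (N := N) u v = melL2 (gw (N := N) k u UpperHalfPlane.I 0 v) := by
  funext κ
  unfold aM
  congr 1
  funext y
  unfold gw g1
  rw [psi_I hu, mai_xa]

theorem mai_meas (v : ZMod N × ZMod N) : Measurable (aM (N := N) u v) := by
  unfold aM
  exact measurable_melL2 _

theorem mai_mul_mem {p : ℕ} (hp : p.Prime ∧ ¬ p ∣ N) {v : ZMod N × ZMod N} (hv : v ∈ PV N) :
    ((p : ZMod N) * v.1, (p : ZMod N) * v.2) ∈ PV N ∧
      ((p : ZMod N)⁻¹ * v.1, (p : ZMod N)⁻¹ * v.2) ∈ PV N := by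
  have hc : p.Coprime N := (Nat.Prime.coprime_iff_not_dvd hp.1).2 hp.2
  refine ⟨(mul_mem_PV v p).2 ⟨hv, hc⟩, ?_⟩
  have h1 : (p : ZMod N) * (p : ZMod N)⁻¹ = 1 := ZMod.coe_mul_inv_eq_one p hc
  have h2 := (mul_mem_PV (N := N) ((p : ZMod N)⁻¹ * v.1, (p : ZMod N)⁻¹ * v.2) p)
  have h3 : ((p : ZMod N) * ((p : ZMod N)⁻¹ * v.1), (p : ZMod N) * ((p : ZMod N)⁻¹ * v.2)) ∈ PV N := by
    rw [← mul_assoc, ← mul_assoc, h1, one_mul, one_mul]
    exact hv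
  exact (h2.1 h3).1

/-- the amplifier is linear -/
theorem mai_app {PP : Finset ℕ} (hPP : ∀ p ∈ PP, p.Prime ∧ ¬ p ∣ N) (l : ℂ)
    {a Ap Am : ZMod N × ZMod N → ℝ → ℂ} {κ : ℝ} {Y Z : ℂ}
    (h : ∀ v ∈ PV N, a v κ = Ap v κ * Y + Am v κ * Z) {v : ZMod N × ZMod N} (hv : v ∈ PV N) :
    App1 l PP a v κ = App1 l PP Ap v κ * Y + App1 l PP Am v κ * Z := by
  unfold App1 App
  have e : ∀ p ∈ PP, ((p : ℂ) ^ (2 * κ * I) * a ((p : ZMod N)⁻¹ * v.1, (p : ZMod N)⁻¹ * v.2) κ +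
      a v κ + (p : ℂ) ^ (-(2 * κ * I)) * a ((p : ZMod N) * v.1, (p : ZMod N) * v.2) κ) =
      ((p : ℂ) ^ (2 * κ * I) * Ap ((p : ZMod N)⁻¹ * v.1, (p : ZMod N)⁻¹ * v.2) κ +
      Ap v κ + (p : ℂ) ^ (-(2 * κ * I)) * Ap ((p : ZMod N) * v.1, (p : ZMod N) * v.2) κ) * Y +
      ((p : ℂ) ^ (2 * κ * I) * Am ((p : ZMod N)⁻¹ * v.1, (p : ZMod N)⁻¹ * v.2) κ +
      Am v κ + (p : ℂ) ^ (-(2 * κ * I)) * Am ((p : ZMod N) * v.1, (p : ZMod N) * v.2) κ) * Z := by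
    intro p hp
    rw [h _ (mai_mul_mem (hPP p hp) hv).1, h _ (mai_mul_mem (hPP p hp) hv).2, h v hv]
    ring
  rw [Finset.sum_congr rfl e, Finset.sum_add_distrib, h v hv, ← Finset.sum_mul, ← Finset.sum_mul]
  ring

theorem mai_meas_app {PP : Finset ℕ} (l : ℂ) {a : ZMod N × ZMod N → ℝ → ℂ}
    (h : ∀ v, Measurable (a v)) (v : ZMod N × ZMod N) : Measurable (App1 l PP a v) := by
  have e : App1 l PP a v = fun κ => l * a v κ + ∑ p ∈ PP,
      ((p : ℂ) ^ (2 * κ * I) * a ((p : ZMod N)⁻¹ * v.1, (p : ZMod N)⁻¹ * v.2) κ + a v κ +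
        (p : ℂ) ^ (-(2 * κ * I)) * a ((p : ZMod N) * v.1, (p : ZMod N) * v.2) κ) := rfl
  rw [e]
  refine ((h v).const_mul l).add ?_
  refine Finset.measurable_fun_sum _ fun p _ => ?_
  refine (((Measurable.const_pow ?_ _).mul (h _)).add (h _)).add
    ((Measurable.const_pow ?_ _).mul (h _))
  · fun_prop
  · fun_prop

/-- large `K` -/
theorem mai_large {e : ℕ} {Wp Wm : ℝ → ℂ} {Yp Ym : ℍ → ℂ → ℂ} (hu : WForm N χ k lam u)
    (he : HasExp Wp Wm (liftK (N := N) k u)) (hL : LocData e Wp Wm Yp Ym) {β : ℝ → ℝ}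
    (hβm : Measurable β) {c0 : ℝ} (hc0 : 0 < c0) (hβ : ∀ t, 1 / 4 ≤ t → t ≤ 9 / 2 → c0 ≤ β t) :
    ∃ C K₀ : ℝ, 0 ≤ C ∧ 1 ≤ K₀ ∧ ∀ (l : ℂ) (PP : Finset ℕ), (∀ p ∈ PP, p.Prime ∧ ¬ p ∣ N) →
      ∀ K : ℝ, K₀ ≤ K → ∑ v ∈ PV N, ∫⁻ κ in {κ : ℝ | K ≤ |κ| ∧ |κ| ≤ 2 * K},
          ENNReal.ofReal (‖App1 l PP (aM (N := N) u) v κ‖ ^ 2 * Real.exp (Real.pi * |κ|)) ≤
        ENNReal.ofReal (C * K ^ (2 * (e : ℝ) - 2)) *
          ∫⁻ w : ℍ, ENNReal.ofReal (β (Real.cosh (dist UpperHalfPlane.I w) / K ^ 2)) *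
            nG (MP l PP (PsiF (N := N) k u w)) := by
  obtain ⟨Ap, Am, hAp, hAm, hA⟩ := loc_main hu he hL
  obtain ⟨C, K₀, hC, hK₀, hfin⟩ := fin_int hL hβm hc0 hβ
  refine ⟨C * (4 * Real.pi / N), K₀, by positivity, hK₀, ?_⟩
  intro l PP hPP K hK
  have h1 := hfin (PV N) (App1 l PP Ap) (App1 l PP Am) (mai_meas_app l hAp) (mai_meas_app l hAm)
    (fun w => ENNReal.ofReal (4 * Real.pi / N) * nG (MP l PP (PsiF (N := N) k u w)))
    (fun w => wq hu hA w l hPP) K hK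
  have hK1 : 0 < K := by linarith
  have h2 : ∫⁻ w : ℍ, ENNReal.ofReal (β (Real.cosh (dist UpperHalfPlane.I w) / K ^ 2)) *
        (ENNReal.ofReal (4 * Real.pi / N) * nG (MP l PP (PsiF (N := N) k u w))) =
      ENNReal.ofReal (4 * Real.pi / N) *
        ∫⁻ w : ℍ, ENNReal.ofReal (β (Real.cosh (dist UpperHalfPlane.I w) / K ^ 2)) *
          nG (MP l PP (PsiF (N := N) k u w)) := by
    rw [← lintegral_const_mul' _ _ ENNReal.ofReal_ne_top]
    refine lintegral_congr fun w => ?_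
    ring
  rw [h2, ← mul_assoc, ← ENNReal.ofReal_mul (by positivity)] at h1
  have h3 : C * K ^ (2 * (e : ℝ) - 2) * (4 * Real.pi / N) =
      C * (4 * Real.pi / N) * K ^ (2 * (e : ℝ) - 2) := by ring
  rw [h3] at h1
  refine le_trans (le_of_eq ?_) h1
  refine Finset.sum_congr rfl fun v hv => ?_
  refine lintegral_congr_ae (ae_restrict_of_ae ?_)
  have h4 : ∀ᵐ κ : ℝ, ∀ v' ∈ PV N, aM (N := N) u v' κ =
      Ap v' κ * Yp UpperHalfPlane.I ((1 / 2 : ℝ) + (κ : ℂ) * I) +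
        Am v' κ * Ym UpperHalfPlane.I ((1 / 2 : ℝ) + (κ : ℂ) * I) := by
    rw [Finset.eventually_all]
    intro v' hv'
    rw [mai_aM hu]
    exact hA v' hv' _ (ss_I hu)
  filter_upwards [h4] with κ hκ
  rw [mai_app hPP l hκ hv]

theorem b1_main_pr {e : ℕ} {Wp Wm : ℝ → ℂ} {Yp Ym : ℍ → ℂ → ℂ} (hu : WForm N χ k lam u)
    (he : HasExp Wp Wm (liftK (N := N) k u)) (hL : LocData e Wp Wm Yp Ym) {β : ℝ → ℝ}
    (hβm : Measurable β) {c0 : ℝ} (hc0 : 0 < c0) (hβ : ∀ t, 1 / 4 ≤ t → t ≤ 9 / 2 → c0 ≤ β t)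
    (hH : BoxH N k lam u β) : ConclB1 N e lam u := by
  obtain ⟨C1, K₀, hC1, hK₀, hlarge⟩ := mai_large hu he hL hβm hc0 hβ
  obtain ⟨CH, dH, hdH, hH1, hH2⟩ := hH
  have hint : ∀ v ∈ PV N, Integrable fun κ : ℝ => ‖aM (N := N) u v κ‖ ^ 2 := by
    intro v hv
    rw [mai_aM hu]
    exact integrable_melL2_sq (ss_I hu v hv).memLp
  refine ⟨hint, ?_⟩
  obtain ⟨C2, hC2, hsmall⟩ := app_small (N := N) (mai_meas (u := u)) hint lam K₀ (2 * dH) hK₀
    (by linarith)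
  have hpow : ∀ K : ℝ, 1 ≤ K → K ^ (2 * (e : ℝ) - 2) * K ^ 2 = K ^ (2 * (e : ℝ)) := by
    intro K hK
    have hK0 : 0 < K := by linarith
    rw [← Real.rpow_natCast K 2, ← Real.rpow_add hK0]
    congr 1
    push_cast
    ring
  have hone : ∀ K : ℝ, 1 ≤ K → 1 ≤ K ^ (2 * (e : ℝ)) := by
    intro K hK
    exact Real.one_le_rpow hK (by positivity)
  refine ⟨C2 + C1 * |CH|, 2 * dH, by linarith, ?_, ?_⟩
  · intro K P hK hP hPK PP hPP
    have hP0 : 0 < P := by linarith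
    have hK0 : 0 < K := by linarith
    have hP1 : 1 ≤ P ^ (3 / 2 : ℝ) := Real.one_le_rpow hP (by norm_num)
    have hKk := hone K hK
    have e0 : ∀ v κ, App PP (aM (N := N) u) v κ = App1 0 PP (aM (N := N) u) v κ := by
      intro v κ
      unfold App1
      rw [zero_mul, zero_add]
    simp_rw [e0]
    rcases le_total K K₀ with h | h
    · refine (hsmall K P hK h hP hPK 0 PP (by simp) hPP).trans (ENNReal.ofReal_le_ofReal ?_)
      have h1 : C2 ≤ C2 * (P ^ (3 / 2 : ℝ) * K ^ (2 * (e : ℝ))) :=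
        le_mul_of_one_le_right hC2 (one_le_mul_of_one_le_of_one_le hP1 hKk)
      have h2 : 0 ≤ C1 * |CH| * (P ^ (3 / 2 : ℝ) * K ^ (2 * (e : ℝ))) := by positivity
      calc C2 ≤ C2 * (P ^ (3 / 2 : ℝ) * K ^ (2 * (e : ℝ))) +
            C1 * |CH| * (P ^ (3 / 2 : ℝ) * K ^ (2 * (e : ℝ))) := by linarith
        _ = (C2 + C1 * |CH|) * P ^ (3 / 2 : ℝ) * K ^ (2 * (e : ℝ)) := by ring
    · have hPP' : ∀ p ∈ PP, p.Prime ∧ ¬ p ∣ N := fun p hp => ⟨(hPP p hp).1, (hPP p hp).2.2.2.1⟩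
      refine (hlarge 0 PP hPP' K h).trans ?_
      have e1 : ∀ w : ℍ, MP 0 PP (PsiF (N := N) k u w) =
          fun s g => ∑ p ∈ PP, Tm p (PsiF k u w) s g := by
        intro w
        funext s g
        unfold MP
        rw [zero_mul, zero_add]
      simp_rw [e1]
      have hKK : (K ^ 2) ^ dH = K ^ (2 * dH) := by
        rw [← Real.rpow_natCast K 2, ← Real.rpow_mul hK0.le]
        norm_num
      have h1 := hH1 (K ^ 2) P (one_le_pow₀ hK) hP (by rw [hKK]; exact hPK) PP hPP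
      refine (mul_le_mul_right h1 _).trans ?_
      rw [← ENNReal.ofReal_mul (by positivity)]
      apply ENNReal.ofReal_le_ofReal
      have h3 : C1 * K ^ (2 * (e : ℝ) - 2) * (CH * P ^ (3 / 2 : ℝ) * K ^ 2) =
          C1 * CH * P ^ (3 / 2 : ℝ) * K ^ (2 * (e : ℝ)) := by
        rw [← hpow K hK]
        ring
      rw [h3]
      have h4 : C1 * CH ≤ C2 + C1 * |CH| := by
        have := mul_le_mul_of_nonneg_left (le_abs_self CH) hC1
        linarith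
      exact mul_le_mul_of_nonneg_right (mul_le_mul_of_nonneg_right h4 (by positivity))
        (by positivity)
  · intro K hK
    have hK0 : 0 < K := by linarith
    have hKk := hone K hK
    have e0 : ∀ v κ, aM (N := N) u v κ = App1 1 ∅ (aM (N := N) u) v κ := by
      intro v κ
      unfold App1 App
      rw [one_mul, Finset.sum_empty, add_zero]
    have e00 : ∀ v : ZMod N × ZMod N, ∫⁻ κ in {κ : ℝ | K ≤ |κ| ∧ |κ| ≤ 2 * K},
          ENNReal.ofReal (‖aM (N := N) u v κ‖ ^ 2 * Real.exp (Real.pi * |κ|)) =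
        ∫⁻ κ in {κ : ℝ | K ≤ |κ| ∧ |κ| ≤ 2 * K},
          ENNReal.ofReal (‖App1 1 ∅ (aM (N := N) u) v κ‖ ^ 2 * Real.exp (Real.pi * |κ|)) := by
      intro v
      refine lintegral_congr fun κ => ?_
      rw [← e0]
    rw [Finset.sum_congr rfl fun v _ => e00 v]
    rcases le_total K K₀ with h | h
    · refine (hsmall K 1 hK h le_rfl (Real.one_le_rpow hK (by linarith)) 1 ∅ (by simp)
        (by intro p hp; simp at hp)).trans (ENNReal.ofReal_le_ofReal ?_)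
      have h1 : C2 ≤ C2 * K ^ (2 * (e : ℝ)) := le_mul_of_one_le_right hC2 hKk
      have h2 : 0 ≤ C1 * |CH| * K ^ (2 * (e : ℝ)) := by positivity
      calc C2 ≤ C2 * K ^ (2 * (e : ℝ)) + C1 * |CH| * K ^ (2 * (e : ℝ)) := by linarith
        _ = (C2 + C1 * |CH|) * K ^ (2 * (e : ℝ)) := by ring
    · refine (hlarge 1 ∅ (by simp) K h).trans ?_
      have e1 : ∀ w : ℍ, MP 1 ∅ (PsiF (N := N) k u w) = PsiF (N := N) k u w := by
        intro w
        funext s g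
        unfold MP
        rw [one_mul, Finset.sum_empty, add_zero]
      simp_rw [e1]
      have h1 := hH2 (K ^ 2) (one_le_pow₀ hK)
      refine (mul_le_mul_right h1 _).trans ?_
      rw [← ENNReal.ofReal_mul (by positivity)]
      apply ENNReal.ofReal_le_ofReal
      have h3 : C1 * K ^ (2 * (e : ℝ) - 2) * (CH * K ^ 2) = C1 * CH * K ^ (2 * (e : ℝ)) := by
        rw [← hpow K hK]
        ring
      rw [h3]
      have h4 : C1 * CH ≤ C2 + C1 * |CH| := by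
        have := mul_le_mul_of_nonneg_left (le_abs_self CH) hC1
        linarith
      exact mul_le_mul_of_nonneg_right h4 (by positivity)

end Pool.Agent.JO
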