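import Pool.Agent.Lib_helper32.JO.BDefs
import Pool.Agent.Lib_helper63.JO.WO
import Pool.Agent.Lib_helper97.JO.HK
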