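import Pool.Agent.Lib_helper32.JO.IWA
import Pool.Agent.Lib_helper95.JO.VAR
import Pool.Agent.Lib_helper22.JO.BE4
import Pool.Agent.Lib_helper12.JO.POL
import Pool.Agent.Lib_helper89.JO.MLX
import Pool.Agent.Lib_helper35.JO.DIR
import Pool.Agent.Lib_helper32.JO.CONB
import Pool.Agent.Lib_helper16.JO.SML
import Pool.Agent.Lib_helper12.JO.HOL

/-! # Project JO, part B1: level 1 -/

set_option autoImplicit false

namespace Pool.Agent.JO

theorem gg_mul_gg : type_of% @gg_mul_gg_pr := @gg_mul_gg_pr

theorem gg_smul_re : type_of% @gg_smul_re_pr := @gg_smul_re_pr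

theorem gg_smul_im : type_of% @gg_smul_im_pr := @gg_smul_im_pr

theorem gg_I_zero : type_of% @gg_I_zero_pr := @gg_I_zero_pr

theorem kK_smul_I : type_of% @kK_smul_I_pr := @kK_smul_I_pr

theorem dist_kK : type_of% @dist_kK_pr := @dist_kK_pr

theorem psi_rot : type_of% @psi_rot_pr := @psi_rot_pr

theorem mean_sub : type_of% @mean_sub_pr := @mean_sub_pr

theorem cf_sub_const : type_of% @cf_sub_const_pr := @cf_sub_const_pr

theorem boxE2 : type_of% @boxE2_pr := @boxE2_pr

theorem boxE4 : type_of% @boxE4_pr := @boxE4_pr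

theorem pol_mel : type_of% @pol_mel_pr := @pol_mel_pr

theorem melL2_congr : type_of% @melL2_congr_pr := @melL2_congr_pr

theorem melL2_smul : type_of% @melL2_smul_pr := @melL2_smul_pr

theorem hm_mel : type_of% @hm_mel_pr := @hm_mel_pr

theorem fLoc_conv : type_of% @fLoc_conv_pr := @fLoc_conv_pr

theorem dir_mel : type_of% @dir_mel_pr := @dir_mel_pr

theorem con_zero : type_of% @con_zero_pr := @con_zero_pr

theorem con_inf : type_of% @con_inf_pr := @con_inf_pr

theorem con_mel : type_of% @con_mel_pr := @con_mel_pr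

theorem app_small : type_of% @app_small_pr := @app_small_pr

theorem locData_hol : type_of% @locData_hol_pr := @locData_hol_pr

end Pool.Agent.JO
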