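import Pool.Agent.Lib_helper32.JO.N1

/-! # Project JO, part B1: the relation on the critical line -/

set_option autoImplicit false

namespace Pool.Agent.JO

open Complex MeasureTheory Filter Topology
open UpperHalfPlane hiding I
open scoped MatrixGroups ComplexConjugate ENNReal

theorem bd_meas_pr {G : ℂ → ℂ} (hd : DifferentiableOn ℂ G {s | s.re < 1 / 2})
    (hG : ∀ κ : ℝ, ContinuousWithinAt G {s : ℂ | 0 < s.re ∧ s.re < 1 / 2}
      ((1 / 2 : ℝ) + (κ : ℂ) * I)) : Measurable fun κ : ℝ => G ((1 / 2 : ℝ) + (κ : ℂ) * I) := by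
  set σ : ℕ → ℝ := fun n => 1 / 2 - 1 / ((n : ℝ) + 3) with hσ
  have hσ1 : ∀ n, 0 < σ n ∧ σ n < 1 / 2 := by
    intro n
    have hn : (0 : ℝ) ≤ (n : ℝ) := Nat.cast_nonneg n
    have h1 : 1 / ((n : ℝ) + 3) ≤ 1 / 3 := by
      apply one_div_le_one_div_of_le <;> linarith
    have h2 : 0 < 1 / ((n : ℝ) + 3) := by positivity
    simp only [hσ]
    constructor <;> linarith
  have hσt : Tendsto σ atTop (𝓝 (1 / 2)) := by
    have h2 : Tendsto (fun n : ℕ => (n : ℝ) + 3) atTop atTop :=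
      tendsto_atTop_add_const_right _ _ tendsto_natCast_atTop_atTop
    have h3 : Tendsto (fun n : ℕ => 1 / 2 - ((n : ℝ) + 3)⁻¹) atTop (𝓝 (1 / 2 - 0)) :=
      tendsto_const_nhds.sub h2.inv_tendsto_atTop
    simpa [hσ] using h3
  have hre : ∀ (n : ℕ) (κ : ℝ), ((σ n : ℂ) + (κ : ℂ) * I).re = σ n := by
    intro n κ
    simp
  refine measurable_of_tendsto_metrizable (f := fun (n : ℕ) (κ : ℝ) => G ((σ n : ℂ) + (κ : ℂ) * I))
    ?_ ?_
  · intro n
    refine Continuous.measurable ?_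
    refine hd.continuousOn.comp_continuous (by fun_prop) fun κ => ?_
    rw [Set.mem_ofPred_eq, hre]
    exact (hσ1 n).2
  · rw [tendsto_pi_nhds]
    intro κ
    refine (hG κ).tendsto.comp (tendsto_nhdsWithin_iff.2 ⟨?_, ?_⟩)
    · exact ((Complex.continuous_ofReal.tendsto _).comp hσt).add_const _
    · refine Filter.Eventually.of_forall fun n => ?_
      rw [Set.mem_ofPred_eq, hre]
      exact hσ1 n

theorem rel_line_pr {k : ℕ} {Wp Wm : ℝ → ℂ} {Yp Ym : ℍ → ℂ → ℂ} (hL : LocData k Wp Wm Yp Ym)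
    {c : ℍ → ℝ → ℂ} {m : ℍ → ℂ} {S : Set ℍ} (hS : ∀ᵐ w : ℍ, w ∈ S) (hI : UpperHalfPlane.I ∈ S)
    (hok : ∀ w ∈ S, MelOK fun y => c w y - m w)
    (hb : ∀ w, ∃ B : ℝ, ∀ y, 0 < y → ‖c w y‖ ≤ B)
    (hd : ∀ w, ∃ C d : ℝ, 0 < d ∧ ∀ y, 1 ≤ y → ‖c w y‖ ≤ C * Real.exp (-(d * y)))
    {Dp Dm : ℂ → ℂ} (hD : ∀ (w : ℍ) (s : ℂ), s.re < 0 →
      mellin (c w) (-s) =
        Dp s * mellin (fLoc Wp 1 w) (-s) + Dm s * mellin (fLoc Wm (-1) w) (-s)) :
    ∃ Ap Am : ℝ → ℂ, Measurable Ap ∧ Measurable Am ∧ ∀ w ∈ S, ∀ᵐ κ : ℝ,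
      melL2 (fun y => c w y - m w) κ = Ap κ * Yp w ((1 / 2 : ℝ) + (κ : ℂ) * I) +
        Am κ * Ym w ((1 / 2 : ℝ) + (κ : ℂ) * I) := by
  obtain ⟨n, b, gp, gm, q, hbS, hgp, hgm, hq, hgpc, hgmc, hqc, hq0, hp, hm⟩ := hL.inv S hS hI
  obtain ⟨s₀, P0, hs₀, -, hP0n, hP0⟩ := hL.cont
  have hBex : ∀ w : ℍ, ∃ B : ℂ → ℂ, w ∈ S → DifferentiableOn ℂ B {s | s.re < 1 / 2} ∧
      (∀ s : ℂ, s.re < 0 → B s = s * mellin (c w) (-s)) ∧
      ∀ s : ℂ, 0 < s.re → s.re < 1 / 2 → B s = s * mellin (fun y => c w y - m w) (-s) := by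
    intro w
    by_cases hw : w ∈ S
    · obtain ⟨B, h1⟩ := con_mel (hok w hw) (hb w) (hd w)
      exact ⟨B, fun _ => h1⟩
    · exact ⟨fun _ => 0, fun h => absurd h hw⟩
  choose B hB using hBex
  have hP : ∀ (w : ℍ) (s : ℂ), s.re < s₀ →
      P0 s * mellin (c w) (-s) = Dp s * Yp w s + Dm s * Ym w s := by
    intro w s hs
    rw [hD w s (hs.trans hs₀), (hP0 w).1 s hs, (hP0 w).2 s hs]
    ring
  have hrel0 : ∀ w ∈ S, ∀ s : ℂ, s.re < s₀ →
      q s * B w s = Yp w s * ∑ j, gp j s * B (b j) s + Ym w s * ∑ j, gm j s * B (b j) s := by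
    intro w hw s hs
    have hs1 : s.re < 0 := hs.trans hs₀
    have hs2 : s.re < 1 / 2 := by linarith
    have hPs := hP0n s hs
    apply mul_left_cancel₀ hPs
    have e1 : P0 s * (q s * B w s) = s * (Dp s * (q s * Yp w s) + Dm s * (q s * Ym w s)) := by
      rw [(hB w hw).2.1 s hs1]
      linear_combination (s * q s) * hP w s hs
    have e2 : ∀ g : Fin n → ℂ → ℂ, P0 s * ∑ j, g j s * B (b j) s =
        s * (Dp s * ∑ j, g j s * Yp (b j) s + Dm s * ∑ j, g j s * Ym (b j) s) := by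
      intro g
      rw [Finset.mul_sum, Finset.mul_sum, Finset.mul_sum, ← Finset.sum_add_distrib, Finset.mul_sum]
      refine Finset.sum_congr rfl fun j _ => ?_
      rw [(hB (b j) (hbS j)).2.1 s hs1]
      linear_combination (s * g j s) * hP (b j) s hs
    rw [e1, hp w s hs2, hm w s hs2]
    linear_combination (-(Yp w s)) * e2 gp + (-(Ym w s)) * e2 gm
  have hopen : IsOpen {s : ℂ | s.re < 1 / 2} := isOpen_lt Complex.continuous_re continuous_const
  have hrel1 : ∀ w ∈ S, ∀ s : ℂ, s.re < 1 / 2 →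
      q s * B w s = Yp w s * ∑ j, gp j s * B (b j) s + Ym w s * ∑ j, gm j s * B (b j) s := by
    intro w hw
    have hf : DifferentiableOn ℂ (fun s => q s * B w s) {s | s.re < 1 / 2} := hq.mul (hB w hw).1
    have hs : ∀ g : Fin n → ℂ → ℂ, (∀ j, DifferentiableOn ℂ (g j) {s | s.re < 1 / 2}) →
        DifferentiableOn ℂ (fun s => ∑ j, g j s * B (b j) s) {s | s.re < 1 / 2} := by
      intro g hg
      exact DifferentiableOn.fun_sum fun j _ => (hg j).mul (hB (b j) (hbS j)).1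
    have hg : DifferentiableOn ℂ (fun s => Yp w s * ∑ j, gp j s * B (b j) s +
        Ym w s * ∑ j, gm j s * B (b j) s) {s | s.re < 1 / 2} :=
      ((hL.anp w).mul (hs gp hgp)).add ((hL.anm w).mul (hs gm hgm))
    have h1 := (hf.analyticOnNhd hopen).eqOn_of_preconnected_of_eventuallyEq
      (hg.analyticOnNhd hopen) (convex_halfSpace_re_lt (1 / 2)).isPreconnected
      (z₀ := ((s₀ - 1 : ℝ) : ℂ)) (by rw [Set.mem_ofPred_eq, Complex.ofReal_re]; linarith) ?_
    · intro s hs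
      exact h1 hs
    · have h2 : IsOpen {s : ℂ | s.re < s₀} := isOpen_lt Complex.continuous_re continuous_const
      filter_upwards [h2.mem_nhds (by rw [Set.mem_ofPred_eq, Complex.ofReal_re]; linarith)] with s hs
      exact hrel0 w hw s hs
  refine ⟨fun κ => (q ((1 / 2 : ℝ) + (κ : ℂ) * I))⁻¹ * ∑ j, gp j ((1 / 2 : ℝ) + (κ : ℂ) * I) *
      melL2 (fun y => c (b j) y - m (b j)) κ,
    fun κ => (q ((1 / 2 : ℝ) + (κ : ℂ) * I))⁻¹ * ∑ j, gm j ((1 / 2 : ℝ) + (κ : ℂ) * I) *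
      melL2 (fun y => c (b j) y - m (b j)) κ, ?_, ?_, ?_⟩
  · exact (bd_meas_pr hq hqc).inv.mul (Finset.measurable_fun_sum _ fun j _ =>
      (bd_meas_pr (hgp j) (hgpc j)).mul (measurable_melL2 _))
  · exact (bd_meas_pr hq hqc).inv.mul (Finset.measurable_fun_sum _ fun j _ =>
      (bd_meas_pr (hgm j) (hgmc j)).mul (measurable_melL2 _))
  · intro w hw
    have h1 := melL2_rel (ι := Option (Fin n))
      (c := fun i => Option.elim i (fun y => c w y - m w) fun j y => c (b j) y - m (b j))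
      (by
        intro i
        cases i with
        | none => exact hok w hw
        | some j => exact hok (b j) (hbS j))
      (fun i => Option.elim i q fun j s => -(Yp w s * gp j s + Ym w s * gm j s))
      (by
        intro i κ
        cases i with
        | none => exact hqc κ
        | some j => exact (((hL.bdp w κ).mul (hgpc j κ)).add ((hL.bdm w κ).mul (hgmc j κ))).neg)
      (by
        intro s hs0 hs1
        rw [Fintype.sum_option]
        simp only [Option.elim]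
        have hsn : s ≠ 0 := by
          intro h
          rw [h] at hs0
          simp at hs0
        apply mul_left_cancel₀ hsn
        have h2 := hrel1 w hw s hs1
        rw [(hB w hw).2.2 s hs0 hs1] at h2
        have e2 : ∀ g : Fin n → ℂ → ℂ, ∑ j, g j s * B (b j) s =
            s * ∑ j, g j s * mellin (fun y => c (b j) y - m (b j)) (-s) := by
          intro g
          rw [Finset.mul_sum]
          refine Finset.sum_congr rfl fun j _ => ?_
          rw [(hB (b j) (hbS j)).2.2 s hs0 hs1]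
          ring
        rw [e2, e2] at h2
        have e3 : ∑ j, mellin (fun y => c (b j) y - m (b j)) (-s) *
            -(Yp w s * gp j s + Ym w s * gm j s) =
            -(Yp w s * ∑ j, gp j s * mellin (fun y => c (b j) y - m (b j)) (-s) +
              Ym w s * ∑ j, gm j s * mellin (fun y => c (b j) y - m (b j)) (-s)) := by
          rw [Finset.mul_sum, Finset.mul_sum, ← Finset.sum_add_distrib, ← Finset.sum_neg_distrib]
          refine Finset.sum_congr rfl fun j _ => ?_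
          ring
        rw [e3]
        linear_combination h2)
    filter_upwards [h1, hq0] with κ hκ hκ0
    rw [Fintype.sum_option] at hκ
    simp only [Option.elim] at hκ
    apply mul_right_cancel₀ hκ0
    have e3 : ∑ j, melL2 (fun y => c (b j) y - m (b j)) κ *
        -(Yp w ((1 / 2 : ℝ) + (κ : ℂ) * I) * gp j ((1 / 2 : ℝ) + (κ : ℂ) * I) +
          Ym w ((1 / 2 : ℝ) + (κ : ℂ) * I) * gm j ((1 / 2 : ℝ) + (κ : ℂ) * I)) =
        -(Yp w ((1 / 2 : ℝ) + (κ : ℂ) * I) * (∑ j, gp j ((1 / 2 : ℝ) + (κ : ℂ) * I) *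
            melL2 (fun y => c (b j) y - m (b j)) κ) +
          Ym w ((1 / 2 : ℝ) + (κ : ℂ) * I) * ∑ j, gm j ((1 / 2 : ℝ) + (κ : ℂ) * I) *
            melL2 (fun y => c (b j) y - m (b j)) κ) := by
      rw [Finset.mul_sum, Finset.mul_sum, ← Finset.sum_add_distrib, ← Finset.sum_neg_distrib]
      refine Finset.sum_congr rfl fun j _ => ?_
      ring
    rw [e3] at hκ
    set Q := q ((1 / 2 : ℝ) + (κ : ℂ) * I) with hQ
    set T1 := ∑ j, gp j ((1 / 2 : ℝ) + (κ : ℂ) * I) * melL2 (fun y => c (b j) y - m (b j)) κ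
    set T2 := ∑ j, gm j ((1 / 2 : ℝ) + (κ : ℂ) * I) * melL2 (fun y => c (b j) y - m (b j)) κ
    have e4 : Q⁻¹ * Q = 1 := inv_mul_cancel₀ hκ0
    linear_combination hκ - (T1 * Yp w ((1 / 2 : ℝ) + (κ : ℂ) * I) +
      T2 * Ym w ((1 / 2 : ℝ) + (κ : ℂ) * I)) * e4

end Pool.Agent.JO
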