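import Pool.Agent.Lib_helper22.JO.ROT
import Pool.Agent.Lib_helper13.JO.PSI
import Pool.Agent.Lib_helper14.JO.HEC
import Pool.Agent.Lib_helper32.JO.REL

/-! # Project JO, part B1: level 2 -/

set_option autoImplicit false

namespace Pool.Agent.JO

theorem kK_cont : type_of% @kK_cont_pr := @kK_cont_pr

theorem kK_mp : type_of% @kK_mp_pr := @kK_mp_pr

theorem rot_lint : type_of% @rot_lint_pr := @rot_lint_pr

theorem psi_mf : type_of% @psi_mf_pr := @psi_mf_pr

theorem psi_bdd : type_of% @psi_bdd_pr := @psi_bdd_pr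

theorem psi_decay : type_of% @psi_decay_pr := @psi_decay_pr

theorem psi_cont : type_of% @psi_cont_pr := @psi_cont_pr

theorem psi_I : type_of% @psi_I_pr := @psi_I_pr

theorem mp_mf : type_of% @mp_mf_pr := @mp_mf_pr

theorem hec_step : type_of% @hec_step_pr := @hec_step_pr

theorem bd_meas : type_of% @bd_meas_pr := @bd_meas_pr

theorem rel_line : type_of% @rel_line_pr := @rel_line_pr

end Pool.Agent.JO
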