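import Pool.Agent.Lib_helper89.JO.CFP
import Pool.Agent.Lib_helper32.JO.FIN
import Pool.Agent.Lib_helper72.JO.FOU

/-! # Project JO, part B1: level 3 -/

set_option autoImplicit false

namespace Pool.Agent.JO

theorem cf_meas : type_of% @cf_meas_pr := @cf_meas_pr

theorem cf_meas_x : type_of% @cf_meas_x_pr := @cf_meas_x_pr

theorem cf_bdd : type_of% @cf_bdd_pr := @cf_bdd_pr

theorem cf_decay : type_of% @cf_decay_pr := @cf_decay_pr

theorem fin_int : type_of% @fin_int_pr := @fin_int_pr

theorem fou_parseval : type_of% @fou_parseval_pr := @fou_parseval_pr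

theorem fou : type_of% @fou_pr := @fou_pr

end Pool.Agent.JO
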