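import Pool.Agent.Lib_helper13.JO.MEA
import Pool.Agent.Lib_helper32.JO.INQ

/-! # Project JO, part B1: level 4 -/

set_option autoImplicit false

namespace Pool.Agent.JO

theorem mean_meas : type_of% @mean_meas_pr := @mean_meas_pr

theorem cf_rot : type_of% @cf_rot_pr := @cf_rot_pr

theorem gw_ae : type_of% @gw_ae_pr := @gw_ae_pr

theorem inq : type_of% @inq_pr := @inq_pr

end Pool.Agent.JO
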