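import Pool.Agent.Lib_helper32.JO.SET

/-! # Project JO, part B1: level 5 -/

set_option autoImplicit false

namespace Pool.Agent.JO

theorem ss_rot : type_of% @ss_rot_pr := @ss_rot_pr

theorem ss_I : type_of% @ss_I_pr := @ss_I_pr

theorem ss_ae : type_of% @ss_ae_pr := @ss_ae_pr

end Pool.Agent.JO
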