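import Pool.Agent.Lib_helper32.JO.N5

/-! # Project JO, part B1: Bessel's inequality in terms of the local factors -/

set_option autoImplicit false

namespace Pool.Agent.JO

open Complex MeasureTheory Filter Topology
open UpperHalfPlane hiding I
open scoped MatrixGroups ComplexConjugate ENNReal

variable {N : ℕ} [NeZero N] {χ : DirichletCharacter ℂ N} {k : ℕ} {lam : ℕ → ℂ} {u : ℍ → ℂ}

theorem wq_mul_mem {p : ℕ} (hp : p.Prime ∧ ¬ p ∣ N) {v : ZMod N × ZMod N} (hv : v ∈ PV N) :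
    ((p : ZMod N) * v.1, (p : ZMod N) * v.2) ∈ PV N ∧
      ((p : ZMod N)⁻¹ * v.1, (p : ZMod N)⁻¹ * v.2) ∈ PV N := by
  have hc : p.Coprime N := (Nat.Prime.coprime_iff_not_dvd hp.1).2 hp.2
  refine ⟨(mul_mem_PV v p).2 ⟨hv, hc⟩, ?_⟩
  have h1 : (p : ZMod N) * (p : ZMod N)⁻¹ = 1 := ZMod.coe_mul_inv_eq_one p hc
  have h2 := (mul_mem_PV (N := N) ((p : ZMod N)⁻¹ * v.1, (p : ZMod N)⁻¹ * v.2) p)
  have h3 : ((p : ZMod N) * ((p : ZMod N)⁻¹ * v.1), (p : ZMod N) * ((p : ZMod N)⁻¹ * v.2)) ∈ PV N := by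
    rw [← mul_assoc, ← mul_assoc, h1, one_mul, one_mul]
    exact hv
  exact (h2.1 h3).1

theorem wq_app {PP : Finset ℕ} (hPP : ∀ p ∈ PP, p.Prime ∧ ¬ p ∣ N) (l : ℂ)
    {a Ap Am : ZMod N × ZMod N → ℝ → ℂ} {κ : ℝ} {Y Z : ℂ}
    (h : ∀ v ∈ PV N, a v κ = Ap v κ * Y + Am v κ * Z) {v : ZMod N × ZMod N} (hv : v ∈ PV N) :
    App1 l PP a v κ = App1 l PP Ap v κ * Y + App1 l PP Am v κ * Z := by
  unfold App1 App
  have e : ∀ p ∈ PP, ((p : ℂ) ^ (2 * κ * I) * a ((p : ZMod N)⁻¹ * v.1, (p : ZMod N)⁻¹ * v.2) κ +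
      a v κ + (p : ℂ) ^ (-(2 * κ * I)) * a ((p : ZMod N) * v.1, (p : ZMod N) * v.2) κ) =
      ((p : ℂ) ^ (2 * κ * I) * Ap ((p : ZMod N)⁻¹ * v.1, (p : ZMod N)⁻¹ * v.2) κ +
      Ap v κ + (p : ℂ) ^ (-(2 * κ * I)) * Ap ((p : ZMod N) * v.1, (p : ZMod N) * v.2) κ) * Y +
      ((p : ℂ) ^ (2 * κ * I) * Am ((p : ZMod N)⁻¹ * v.1, (p : ZMod N)⁻¹ * v.2) κ +
      Am v κ + (p : ℂ) ^ (-(2 * κ * I)) * Am ((p : ZMod N) * v.1, (p : ZMod N) * v.2) κ) * Z := by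
    intro p hp
    rw [h _ (wq_mul_mem (hPP p hp) hv).1, h _ (wq_mul_mem (hPP p hp) hv).2, h v hv]
    ring
  rw [Finset.sum_congr rfl e, Finset.sum_add_distrib, h v hv, ← Finset.sum_mul, ← Finset.sum_mul]
  ring

theorem wq_pr {Yp Ym : ℍ → ℂ → ℂ} (hu : WForm N χ k lam u) {Ap Am : ZMod N × ZMod N → ℝ → ℂ}
    (hA : ∀ v ∈ PV N, ∀ w ∈ SS N k u, ∀ᵐ κ : ℝ,
      melL2 (gw (N := N) k u w 0 v) κ = Ap v κ * Yp w ((1 / 2 : ℝ) + (κ : ℂ) * I) +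
        Am v κ * Ym w ((1 / 2 : ℝ) + (κ : ℂ) * I)) (w : ℍ) (l : ℂ) {PP : Finset ℕ}
    (hPP : ∀ p ∈ PP, p.Prime ∧ ¬ p ∣ N) :
    ∑ v ∈ PV N, ∫⁻ a in Set.Ioc 0 (2 * Real.pi), ∫⁻ κ : ℝ,
        ENNReal.ofReal (‖App1 l PP Ap v κ * Yp (kK a • w) ((1 / 2 : ℝ) + (κ : ℂ) * I) +
          App1 l PP Am v κ * Ym (kK a • w) ((1 / 2 : ℝ) + (κ : ℂ) * I)‖ ^ 2) ≤
      ENNReal.ofReal (4 * Real.pi / N) * nG (MP l PP (PsiF (N := N) k u w)) := by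
  refine le_trans (le_of_eq ?_) (inq hu w l hPP)
  refine Finset.sum_congr rfl fun v hv => ?_
  refine lintegral_congr_ae ?_
  filter_upwards [ss_rot hu w] with a ha
  refine lintegral_congr_ae ?_
  obtain ⟨ph, hph, h1, h2⟩ := cf_rot hu w a
  have h3 : ∀ v' : ZMod N × ZMod N, melL2 (gw (N := N) k u w a v') =
      melL2 (fun y => ph * gw (N := N) k u (kK a • w) 0 v' y) := by
    intro v'
    refine melL2_congr fun y hy => ?_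
    unfold gw g1
    rw [h1 y v' hy, h2]
    ring
  have h4 : ∀ᵐ κ : ℝ, ∀ v' ∈ PV N, melL2 (gw (N := N) k u w a v') κ =
      Ap v' κ * (ph * Yp (kK a • w) ((1 / 2 : ℝ) + (κ : ℂ) * I)) +
        Am v' κ * (ph * Ym (kK a • w) ((1 / 2 : ℝ) + (κ : ℂ) * I)) := by
    rw [Finset.eventually_all]
    intro v' hv'
    rw [h3 v']
    filter_upwards [melL2_smul (ha v' hv') ph, hA v' hv' _ ha] with κ e1 e2
    rw [e1, e2]
    ring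
  filter_upwards [h4] with κ hκ
  have h5 := wq_app (a := fun v' κ' => melL2 (gw (N := N) k u w a v') κ') hPP l hκ hv
  rw [h5]
  congr 2
  have e1 : App1 l PP Ap v κ * (ph * Yp (kK a • w) ((1 / 2 : ℝ) + (κ : ℂ) * I)) +
      App1 l PP Am v κ * (ph * Ym (kK a • w) ((1 / 2 : ℝ) + (κ : ℂ) * I)) =
      ph * (App1 l PP Ap v κ * Yp (kK a • w) ((1 / 2 : ℝ) + (κ : ℂ) * I) +
        App1 l PP Am v κ * Ym (kK a • w) ((1 / 2 : ℝ) + (κ : ℂ) * I)) := by ring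
  rw [e1, norm_mul, hph, one_mul]

end Pool.Agent.JO
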