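import Pool.Agent.Lib_helper32.JO.LOC
import Pool.Agent.Lib_helper32.JO.WQ

/-! # Project JO, part B1: level 6 -/

set_option autoImplicit false

namespace Pool.Agent.JO

theorem loc_main : type_of% @loc_main_pr := @loc_main_pr

theorem wq : type_of% @wq_pr := @wq_pr

end Pool.Agent.JO
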