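import Pool.Agent.Lib_helper32.JO.MAI

/-! # Project JO, part B1: level 7 -/

set_option autoImplicit false

namespace Pool.Agent.JO

theorem b1_main : type_of% @b1_main_pr := @b1_main_pr

end Pool.Agent.JO
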