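import Pool.Agent.Lib_helper32.JO.N4

/-! # Project JO, part B1: the good base points -/

set_option autoImplicit false

namespace Pool.Agent.JO

open Complex MeasureTheory Filter Topology
open UpperHalfPlane hiding I
open scoped MatrixGroups ComplexConjugate ENNReal

variable {N : ℕ} [NeZero N] {χ : DirichletCharacter ℂ N} {k : ℕ} {lam : ℕ → ℂ} {u : ℍ → ℂ}

theorem set_xa_meas (a : ℝ) : Measurable fun y : ℝ => xa a y := by
  unfold xa
  refine Measurable.div measurable_const ?_
  exact Complex.measurable_ofReal.comp Real.continuous_sqrt.measurable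

theorem set_gw_meas (hu : WForm N χ k lam u) (w : ℍ) (a : ℝ) (v : ZMod N × ZMod N) :
    Measurable (gw (N := N) k u w a v) := by
  unfold gw g1
  exact ((cf_meas_x hu w v).comp (set_xa_meas a)).sub_const _

theorem set_gw_bdd (hu : WForm N χ k lam u) (w : ℍ) (a : ℝ) (v : ZMod N × ZMod N) :
    ∃ B : ℝ, ∀ y : ℝ, 1 ≤ y → ‖gw (N := N) k u w a v y‖ ≤ B := by
  obtain ⟨B, -, hB⟩ := cf_bdd hu
  refine ⟨B + ‖mean (PsiF (N := N) k u w)‖, fun y _ => ?_⟩
  exact (norm_sub_le _ _).trans (add_le_add (hB w _ v) le_rfl)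

theorem ss_rot_pr (hu : WForm N χ k lam u) (w : ℍ) :
    ∀ᵐ a ∂(volume.restrict (Set.Ioc 0 (2 * Real.pi))), kK a • w ∈ SS N k u := by
  filter_upwards [gw_ae hu w] with a ha
  intro v hv
  obtain ⟨ph, hph, h1, h2⟩ := cf_rot hu w a
  refine ⟨set_gw_meas hu _ _ _, ?_, set_gw_bdd hu _ _ _⟩
  have h3 : ∀ y : ℝ, 0 < y → gw (N := N) k u w a v y = ph * gw (N := N) k u (kK a • w) 0 v y := by
    intro y hy
    unfold gw g1
    rw [h1 y v hy, h2]
    ring
  refine (ha v hv).sq.congr_fun (fun y hy => ?_) measurableSet_Ioi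
  simp only
  rw [h3 y hy, norm_mul, hph, one_mul]

theorem ss_I_pr (hu : WForm N χ k lam u) : UpperHalfPlane.I ∈ SS N k u := by
  have h1 := ss_rot_pr hu UpperHalfPlane.I
  simp only [kK_smul_I] at h1
  have h2 : (volume.restrict (Set.Ioc 0 (2 * Real.pi))) ≠ (0 : Measure ℝ) := by
    rw [Ne, Measure.restrict_eq_zero, Real.volume_Ioc]
    have := Real.pi_pos
    simp only [sub_zero, ENNReal.ofReal_eq_zero, not_le]
    positivity
  have : (ae (volume.restrict (Set.Ioc 0 (2 * Real.pi)))).NeBot := ae_neBot.2 h2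
  exact h1.exists.choose_spec

/-- the lower integral -/
noncomputable def set_f (N : ℕ) [NeZero N] (k : ℕ) (u : ℍ → ℂ) (v : ZMod N × ZMod N) (w : ℍ) :
    ℝ≥0∞ :=
  ∫⁻ y in Set.Ioi (0 : ℝ), ENNReal.ofReal (‖gw (N := N) k u w 0 v y‖ ^ 2 / y ^ 2)

theorem set_f_meas (hu : WForm N χ k lam u) (v : ZMod N × ZMod N) : Measurable (set_f N k u v) := by
  have h1 : Measurable fun q : ℍ × ℝ =>
      ENNReal.ofReal (‖gw (N := N) k u q.1 0 v q.2‖ ^ 2 / q.2 ^ 2) := by
    have h2 : Measurable fun q : ℍ × ℝ => gw (N := N) k u q.1 0 v q.2 := by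
      unfold gw g1
      exact (cf_meas hu v).sub ((mean_meas hu).comp measurable_fst)
    exact ENNReal.measurable_ofReal.comp ((h2.norm.pow_const 2).div (measurable_snd.pow_const 2))
  exact h1.lintegral_prod_right'

theorem set_mem (hu : WForm N χ k lam u) (w : ℍ) :
    w ∈ SS N k u ↔ ∀ v ∈ PV N, set_f N k u v w < ⊤ := by
  constructor
  · intro h v hv
    exact (h v hv).sq.lintegral_lt_top
  · intro h v hv
    refine ⟨set_gw_meas hu _ _ _, ⟨?_, ?_⟩, set_gw_bdd hu _ _ _⟩
    · exact (((set_gw_meas hu _ _ _).norm.pow_const 2).div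
        (measurable_id.pow_const 2)).aestronglyMeasurable
    · rw [hasFiniteIntegral_iff_ofReal (Filter.Eventually.of_forall fun y => by positivity)]
      exact h v hv

theorem ss_ae_pr (hu : WForm N χ k lam u) : ∀ᵐ w : ℍ, w ∈ SS N k u := by
  have hT : MeasurableSet (SS N k u) := by
    have e : SS N k u = ⋂ v ∈ PV N, {w | set_f N k u v w < ⊤} := by
      ext w
      rw [set_mem hu, Set.mem_iInter₂]
      rfl
    rw [e]
    exact Finset.measurableSet_biInter _ fun v _ =>
      measurableSet_lt (set_f_meas hu v) measurable_const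
  have h1 := rot_lint (f := (SS N k u)ᶜ.indicator (fun _ => (1 : ℝ≥0∞)))
    (measurable_const.indicator hT.compl)
  have h2 : ∀ w : ℍ, ∫⁻ a in Set.Ioc 0 (2 * Real.pi),
      (SS N k u)ᶜ.indicator (fun _ => (1 : ℝ≥0∞)) (kK a • w) = 0 := by
    intro w
    have h3 : ∫⁻ a in Set.Ioc 0 (2 * Real.pi),
      (SS N k u)ᶜ.indicator (fun _ => (1 : ℝ≥0∞)) (kK a • w) =
      ∫⁻ a in Set.Ioc 0 (2 * Real.pi), 0 := by
      refine lintegral_congr_ae ?_
      filter_upwards [ss_rot_pr hu w] with a ha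
      rw [Set.indicator_of_notMem]
      exact fun h => h ha
    rw [h3, lintegral_zero]
  simp only [h2, lintegral_zero, lintegral_indicator hT.compl, lintegral_const, one_mul,
    Measure.restrict_apply MeasurableSet.univ, Set.univ_inter] at h1
  have h4 : ENNReal.ofReal (2 * Real.pi) ≠ 0 := by
    have := Real.pi_pos
    rw [Ne, ENNReal.ofReal_eq_zero, not_le]
    positivity
  have h5 := (mul_eq_zero.1 h1.symm).resolve_left h4
  exact h5

end Pool.Agent.JO
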