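import Pool.Agent.Lib_helper84.JO.Form
import Pool.Agent.Lib_helper84.JO.Mel

/-!
# Project JO, part B1: statements

From Bessel's inequality (E2), the Hecke relation of constant terms (E4) and the amplified mean
square (H) to the weighted bound of the Mellin transform of the constant term of `|u|²`.
-/

set_option autoImplicit false

namespace Pool.Agent.JO

open Complex MeasureTheory Filter Topology
open UpperHalfPlane hiding I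
open scoped MatrixGroups ComplexConjugate ENNReal

/-- the Mellin transform on the critical line of the constant term of `|u|²` minus its mean -/
noncomputable def aM {N : ℕ} [NeZero N] (u : ℍ → ℂ) (v : ZMod N × ZMod N) (κ : ℝ) : ℂ :=
  melL2 (fun y => CF (liftH (phiF (N := N) u)) (I / (√y : ℝ)) v -
    mean (liftH (phiF (N := N) u))) κ

/-- the amplifier: `T_{p²}` acts on Mellin transforms of constant terms by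
`p^{2iκ} c(p⁻¹ v) + c(v) + p^{-2iκ} c(p v)` -/
noncomputable def App {N : ℕ} (PP : Finset ℕ) (a : ZMod N × ZMod N → ℝ → ℂ)
    (v : ZMod N × ZMod N) (κ : ℝ) : ℂ :=
  ∑ p ∈ PP, ((p : ℂ) ^ (2 * κ * I) * a ((p : ZMod N)⁻¹ * v.1, (p : ZMod N)⁻¹ * v.2) κ + a v κ +
    (p : ℂ) ^ (-(2 * κ * I)) * a ((p : ZMod N) * v.1, (p : ZMod N) * v.2) κ)

/-- square of the norm of a family, with values in `[0, ∞]` -/
noncomputable def nG {N : ℕ} [NeZero N] (F : QN N → SL(2, ℝ) → ℂ) : ℝ≥0∞ :=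
  ∑ s : QN N, ∫⁻ p : ℍ × ℝ, ENNReal.ofReal (‖F s (gg p.1 p.2)‖ ^ 2) ∂muG

/-- the admissible sets of primes -/
def PPok (N : ℕ) (lam : ℕ → ℂ) (P : ℝ) (PP : Finset ℕ) : Prop :=
  ∀ p ∈ PP, p.Prime ∧ P ≤ p ∧ (p : ℝ) ≤ 2 * P ∧ ¬ p ∣ N ∧ ‖lam p‖ ≤ (p : ℝ) ^ (1 / 8 : ℝ)

/-- Bessel's inequality (E2) -/
def BoxE2 (N : ℕ) [NeZero N] : Prop :=
  ∀ F : QN N → SL(2, ℝ) → ℂ, SqF F → mean F = 0 → SqL (CF F) ∧ nL (CF F) ≤ 2 * (ip F F).re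

/-- the Hecke relation for constant terms (E4), for bounded families -/
def BoxE4 (N : ℕ) [NeZero N] : Prop :=
  ∀ F : QN N → SL(2, ℝ) → ℂ, MF F → (∃ B : ℝ, ∀ s g, ‖F s g‖ ≤ B) →
    ∀ p : ℕ, p.Prime → ¬ p ∣ N → MF (Tm p F) ∧ ∀ (x : ℂ) (v : ZMod N × ZMod N), x ≠ 0 → v ∈ PV N →
      CF (Tm p F) x v =
        (p : ℂ)⁻¹ * CF F (x / p) ((p : ZMod N)⁻¹ * v.1, (p : ZMod N)⁻¹ * v.2) + CF F x v +
        (p : ℂ) * CF F (p * x) ((p : ZMod N) * v.1, (p : ZMod N) * v.2)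

/-- the amplified mean square (H), `β` is the weight -/
def BoxH (N k : ℕ) [NeZero N] (lam : ℕ → ℂ) (u : ℍ → ℂ) (β : ℝ → ℝ) : Prop :=
  ∃ C d : ℝ, 0 < d ∧
    (∀ X P : ℝ, 1 ≤ X → 1 ≤ P → P ≤ X ^ d → ∀ PP : Finset ℕ, PPok N lam P PP →
      ∫⁻ w : ℍ, ENNReal.ofReal (β (Real.cosh (dist UpperHalfPlane.I w) / X)) *
          nG (N := N) (fun s g => ∑ p ∈ PP, Tm p (PsiF k u w) s g) ≤
        ENNReal.ofReal (C * P ^ (3 / 2 : ℝ) * X)) ∧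
    ∀ X : ℝ, 1 ≤ X →
      ∫⁻ w : ℍ, ENNReal.ofReal (β (Real.cosh (dist UpperHalfPlane.I w) / X)) *
          nG (N := N) (PsiF k u w) ≤ ENNReal.ofReal (C * X)

/-- the terms of the constant term of `Ψ_w`: `ε = 1` for the frequencies `n > 0`, `ε = -1` for the
frequencies `n < 0` -/
noncomputable def fLoc (W : ℝ → ℂ) (ε : ℝ) (w : ℍ) (y : ℝ) : ℂ :=
  W y * conj (W (w.im * y)) * cexp (-(2 * Real.pi * I * (ε * w.re * y : ℝ)))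

/-- the annulus -/
def Reg (K : ℝ) : Set ℍ :=
  {w | K ^ 2 / 4 ≤ Real.cosh (dist UpperHalfPlane.I w) ∧
    Real.cosh (dist UpperHalfPlane.I w) ≤ 9 / 2 * K ^ 2}

/-- the analytic data of the local factors: `Yp w s` is `P0(s)` times the Mellin transform of
`fLoc Wp 1 w` at `-s` for `Re s < s₀`, continued to `Re s < 1/2` and continuous up to the critical
line; and an inversion formula for the unknown Dirichlet series on a suitable set of base points -/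
structure LocData (k : ℕ) (Wp Wm : ℝ → ℂ) (Yp Ym : ℍ → ℂ → ℂ) : Prop where
  cp : ContinuousOn Wp (Set.Ioi 0)
  cm : ContinuousOn Wm (Set.Ioi 0)
  sqp : ∀ σ : ℝ, 0 < σ → IntegrableOn (fun y => ‖Wp y‖ ^ 2 * y ^ (σ - 1)) (Set.Ioi 0)
  sqm : ∀ σ : ℝ, 0 < σ → IntegrableOn (fun y => ‖Wm y‖ ^ 2 * y ^ (σ - 1)) (Set.Ioi 0)
  /-- analytic continuation -/
  cont : ∃ (s₀ : ℝ) (P0 : ℂ → ℂ), s₀ < 0 ∧ DifferentiableOn ℂ P0 {s | s.re < 1 / 2} ∧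
    (∀ s : ℂ, s.re < s₀ → P0 s ≠ 0) ∧
    ∀ w : ℍ, (∀ s : ℂ, s.re < s₀ → Yp w s = P0 s * mellin (fLoc Wp 1 w) (-s)) ∧
      (∀ s : ℂ, s.re < s₀ → Ym w s = P0 s * mellin (fLoc Wm (-1) w) (-s))
  anp : ∀ w, DifferentiableOn ℂ (Yp w) {s | s.re < 1 / 2}
  anm : ∀ w, DifferentiableOn ℂ (Ym w) {s | s.re < 1 / 2}
  bdp : ∀ (w : ℍ) (κ : ℝ), ContinuousWithinAt (Yp w) {s : ℂ | 0 < s.re ∧ s.re < 1 / 2}
      ((1 / 2 : ℝ) + (κ : ℂ) * I)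
  bdm : ∀ (w : ℍ) (κ : ℝ), ContinuousWithinAt (Ym w) {s : ℂ | 0 < s.re ∧ s.re < 1 / 2}
      ((1 / 2 : ℝ) + (κ : ℂ) * I)
  measp : Measurable fun q : ℍ × ℝ => Yp q.1 ((1 / 2 : ℝ) + (q.2 : ℂ) * I)
  measm : Measurable fun q : ℍ × ℝ => Ym q.1 ((1 / 2 : ℝ) + (q.2 : ℂ) * I)
  /-- inversion: base points `b j` in a given set of full measure containing `i` -/
  inv : ∀ S : Set ℍ, (∀ᵐ w : ℍ, w ∈ S) → UpperHalfPlane.I ∈ S →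
    ∃ (m : ℕ) (b : Fin m → ℍ) (gp gm : Fin m → ℂ → ℂ) (q : ℂ → ℂ), (∀ j, b j ∈ S) ∧
      (∀ j, DifferentiableOn ℂ (gp j) {s | s.re < 1 / 2}) ∧
      (∀ j, DifferentiableOn ℂ (gm j) {s | s.re < 1 / 2}) ∧
      DifferentiableOn ℂ q {s | s.re < 1 / 2} ∧
      (∀ j (κ : ℝ), ContinuousWithinAt (gp j) {s : ℂ | 0 < s.re ∧ s.re < 1 / 2}
        ((1 / 2 : ℝ) + (κ : ℂ) * I)) ∧
      (∀ j (κ : ℝ), ContinuousWithinAt (gm j) {s : ℂ | 0 < s.re ∧ s.re < 1 / 2}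
        ((1 / 2 : ℝ) + (κ : ℂ) * I)) ∧
      (∀ κ : ℝ, ContinuousWithinAt q {s : ℂ | 0 < s.re ∧ s.re < 1 / 2}
        ((1 / 2 : ℝ) + (κ : ℂ) * I)) ∧
      (∀ᵐ κ : ℝ, q ((1 / 2 : ℝ) + (κ : ℂ) * I) ≠ 0) ∧
      (∀ w : ℍ, ∀ s : ℂ, s.re < 1 / 2 →
        q s * Yp w s = Yp w s * ∑ j, gp j s * Yp (b j) s + Ym w s * ∑ j, gm j s * Yp (b j) s) ∧
      (∀ w : ℍ, ∀ s : ℂ, s.re < 1 / 2 →
        q s * Ym w s = Yp w s * ∑ j, gp j s * Ym (b j) s + Ym w s * ∑ j, gm j s * Ym (b j) s)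
  /-- the lower bound of the local factor -/
  lower : ∃ c K₀ : ℝ, 0 < c ∧ 1 ≤ K₀ ∧ ∀ K : ℝ, K₀ ≤ K → ∀ κ : ℝ, K ≤ |κ| → |κ| ≤ 2 * K →
    ∀ Dp Dm : ℂ, ENNReal.ofReal (c * K ^ (2 - 2 * (k : ℝ)) * Real.exp (Real.pi * |κ|) *
        ‖Dp * Yp UpperHalfPlane.I ((1 / 2 : ℝ) + (κ : ℂ) * I) +
          Dm * Ym UpperHalfPlane.I ((1 / 2 : ℝ) + (κ : ℂ) * I)‖ ^ 2) ≤
      ∫⁻ w in Reg K, ENNReal.ofReal (‖Dp * Yp w ((1 / 2 : ℝ) + (κ : ℂ) * I) +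
          Dm * Ym w ((1 / 2 : ℝ) + (κ : ℂ) * I)‖ ^ 2)

/-- the conclusion of part B1 -/
def ConclB1 (N k : ℕ) [NeZero N] (lam : ℕ → ℂ) (u : ℍ → ℂ) : Prop :=
  (∀ v ∈ PV N, Integrable fun κ : ℝ => ‖aM (N := N) u v κ‖ ^ 2) ∧
  ∃ C d : ℝ, 0 < d ∧
    (∀ K P : ℝ, 1 ≤ K → 1 ≤ P → P ≤ K ^ d → ∀ PP : Finset ℕ, PPok N lam P PP →
      ∑ v ∈ PV N, ∫⁻ κ in {κ : ℝ | K ≤ |κ| ∧ |κ| ≤ 2 * K},
          ENNReal.ofReal (‖App PP (aM (N := N) u) v κ‖ ^ 2 * Real.exp (Real.pi * |κ|)) ≤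
        ENNReal.ofReal (C * P ^ (3 / 2 : ℝ) * K ^ (2 * (k : ℝ)))) ∧
    ∀ K : ℝ, 1 ≤ K →
      ∑ v ∈ PV N, ∫⁻ κ in {κ : ℝ | K ≤ |κ| ∧ |κ| ≤ 2 * K},
          ENNReal.ofReal (‖aM (N := N) u v κ‖ ^ 2 * Real.exp (Real.pi * |κ|)) ≤
        ENNReal.ofReal (C * K ^ (2 * (k : ℝ)))

end Pool.Agent.JO
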